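import Mathlib
import Pool.Agent.H58P.Det
import Pool.Agent.H58P.Loc

set_option autoImplicit false

/-!
# Gaussian periods
-/

namespace Pool.Agent.Zk47

open Polynomial Module
open Pool.Agent.H58P (Qb qb_isIntegral alg_isIntegral)

/-- an algebraic number outside `M` is moved by an automorphism over `M` -/
lemma exists_moves (M : IntermediateField ℚ Qb) (x : Qb) (hx : x ∉ M) :
    ∃ σ : Qb ≃ₐ[ℚ] Qb, (∀ y ∈ M, σ y = y) ∧ σ x ≠ x := by
  have hcl : IsAlgClosure M Qb := ⟨inferInstance, inferInstance⟩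
  have hn : Normal M Qb := IsAlgClosure.normal M Qb
  have hint : IsIntegral M x := alg_isIntegral M x
  have hsep : IsSeparable M x := (minpoly.irreducible hint).separable
  have h1 : x ∉ (⊥ : Subalgebra M Qb) := by
    rintro ⟨y, hy⟩
    apply hx
    rw [← hy]
    exact y.2
  obtain ⟨y, hy, hconj⟩ := (notMem_iff_exists_ne_and_isConjRoot hsep
    (IsAlgClosed.splits _)).mp h1
  obtain ⟨σ, hσ⟩ := isConjRoot_iff_exists_algEquiv.mp hconj
  refine ⟨(σ.restrictScalars ℚ).symm, fun z hz => ?_, ?_⟩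
  · rw [AlgEquiv.symm_apply_eq]
    exact (σ.commutes ⟨z, hz⟩).symm
  · intro h
    rw [AlgEquiv.symm_apply_eq] at h
    have h2 : σ x = x := h.symm
    have h3 : σ y = x := hσ
    exact hy (σ.injective (h2.trans h3.symm))

/-- sums of roots of unity -/
noncomputable def per {R : Type*} [CommRing R] (q : ℕ) [Fact q.Prime] (ζ : R) (m : ℕ) (t : ZMod q) : R :=
  ∑ a ∈ (Finset.univ : Finset (ZMod q)).filter (fun a => a ^ m = t), ζ ^ a.val

section

variable {R : Type*} [CommRing R] {q : ℕ} [Fact q.Prime]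

lemma pow_val_mul {ζ : R} (hζ : ζ ^ q = 1) (a b : ZMod q) :
    (ζ ^ a.val) ^ b.val = ζ ^ (a * b).val := by
  rw [← pow_mul, ZMod.val_mul]
  conv_lhs => rw [← Nat.mod_add_div (a.val * b.val) q, pow_add, pow_mul ζ q, hζ, one_pow, mul_one]

lemma pow_natCast_val {ζ : R} (hζ : ζ ^ q = 1) (k : ℕ) : ζ ^ ((k : ZMod q)).val = ζ ^ k := by
  rw [ZMod.val_natCast]
  conv_rhs => rw [← Nat.mod_add_div k q, pow_add, pow_mul ζ q, hζ, one_pow, mul_one]

lemma map_per {S : Type*} [CommRing S] (f : R →+* S) (ζ : R) (m : ℕ) (t : ZMod q) :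
    f (per q ζ m t) = per q (f ζ) m t := by
  simp [per, map_sum, map_pow]

/-- replacing `ζ` by a power of `ζ` -/
lemma per_pow {ζ : R} (hζ : ζ ^ q = 1) (m : ℕ) (c : ZMod q) (hc : c ≠ 0) (t : ZMod q) :
    per q (ζ ^ c.val) m t = per q ζ m (c ^ m * t) := by
  unfold per
  refine Finset.sum_bij' (fun a _ => c * a) (fun a _ => c⁻¹ * a) ?_ ?_ ?_ ?_ ?_
  · intro a ha
    simp only [Finset.mem_filter, Finset.mem_univ, true_and] at ha ⊢
    rw [mul_pow, ha]
  · intro a ha
    simp only [Finset.mem_filter, Finset.mem_univ, true_and] at ha ⊢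
    rw [mul_pow, ha, inv_pow]
    field_simp
  · intro a _
    field_simp
  · intro a _
    field_simp
  · intro a _
    rw [pow_val_mul hζ]

end

/-- linear independence of the roots of unity -/
lemma sum_pow_inj {q : ℕ} [hq : Fact q.Prime] {ζ : Qb} (hζ : IsPrimitiveRoot ζ q)
    (A B : Finset (ZMod q)) (hA : (0 : ZMod q) ∉ A) (hB : (0 : ZMod q) ∉ B)
    (h : ∑ a ∈ A, ζ ^ a.val = ∑ b ∈ B, ζ ^ b.val) : A = B := by
  classical
  have hζ0 : ζ ≠ 0 := hζ.ne_zero hq.out.ne_zero
  set f : ℚ[X] := ∑ a ∈ A, X ^ (a.val - 1) - ∑ b ∈ B, X ^ (b.val - 1) with hf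
  have hpos : ∀ a : ZMod q, a ≠ 0 → 1 ≤ a.val := by
    intro a ha
    rw [Nat.one_le_iff_ne_zero, Ne, ZMod.val_eq_zero]
    exact ha
  have hfz : aeval ζ f = 0 := by
    have h1 : ζ * aeval ζ f = 0 := by
      rw [hf]
      simp only [map_sub, map_sum, map_pow, aeval_X, mul_sub, Finset.mul_sum]
      have e : ∀ C : Finset (ZMod q), (0 : ZMod q) ∉ C →
          ∑ a ∈ C, ζ * ζ ^ (a.val - 1) = ∑ a ∈ C, ζ ^ a.val := by
        intro C hC
        refine Finset.sum_congr rfl fun a ha => ?_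
        rw [← pow_succ']
        congr 1
        have : a ≠ 0 := by rintro rfl; exact hC ha
        have := hpos a this
        omega
      rw [e A hA, e B hB, h, sub_self]
    exact (mul_eq_zero.mp h1).resolve_left hζ0
  have hdeg : f.natDegree < q - 1 := by
    have hlt : ∀ a : ZMod q, a ∈ A ∨ a ∈ B → a.val - 1 < q - 1 := by
      intro a ha
      have h1 : a ≠ 0 := by
        rintro rfl
        rcases ha with ha | ha
        · exact hA ha
        · exact hB ha
      have h2 := hpos a h1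
      have h3 := a.val_lt
      omega
    have hq2 := hq.out.two_le
    have : f.degree < ((q - 1 : ℕ) : WithBot ℕ) := by
      refine (degree_sub_le _ _).trans_lt (max_lt ?_ ?_)
      · refine (degree_sum_le _ _).trans_lt ?_
        rw [Finset.sup_lt_iff (WithBot.bot_lt_coe _)]
        intro a ha
        rw [degree_X_pow]
        exact_mod_cast hlt a (Or.inl ha)
      · refine (degree_sum_le _ _).trans_lt ?_
        rw [Finset.sup_lt_iff (WithBot.bot_lt_coe _)]
        intro a ha
        rw [degree_X_pow]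
        exact_mod_cast hlt a (Or.inr ha)
    by_cases hf0 : f = 0
    · rw [hf0, natDegree_zero]; omega
    · exact (natDegree_lt_iff_degree_lt hf0).mpr this
  have hf0 : f = 0 := by
    by_contra hne
    have h1 := Polynomial.natDegree_le_of_dvd (minpoly.dvd ℚ ζ hfz) hne
    rw [← cyclotomic_eq_minpoly_rat hζ hq.out.pos, natDegree_cyclotomic, Nat.totient_prime hq.out] at h1
    omega
  have key : ∀ C : Finset (ZMod q), (0 : ZMod q) ∉ C → ∀ c : ZMod q, c ≠ 0 →
      (∑ a ∈ C, (X : ℚ[X]) ^ (a.val - 1)).coeff (c.val - 1) = if c ∈ C then 1 else 0 := by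
    intro C hC c hc
    rw [finsetSum_coeff]
    simp only [coeff_X_pow]
    have e : ∀ a ∈ C, (if c.val - 1 = a.val - 1 then (1 : ℚ) else 0) = if c = a then 1 else 0 := by
      intro a ha
      have ha0 : a ≠ 0 := by rintro rfl; exact hC ha
      have h1 := hpos a ha0
      have h2 := hpos c hc
      by_cases hca : c = a
      · simp [hca]
      · have : c.val ≠ a.val := fun h => hca (ZMod.val_injective q h)
        rw [if_neg (by omega), if_neg hca]
    rw [Finset.sum_congr rfl e, Finset.sum_ite_eq]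
  ext c
  by_cases hc : c = 0
  · subst hc
    simp [hA, hB]
  · have h1 := congrArg (fun g => g.coeff (c.val - 1)) hf0
    simp only [hf, coeff_sub, coeff_zero] at h1
    rw [key A hA c hc, key B hB c hc] at h1
    by_cases h2 : c ∈ A <;> by_cases h3 : c ∈ B <;> simp [h2, h3] at h1 ⊢

/-- the periods determine the classes -/
lemma per_inj {q : ℕ} [hq : Fact q.Prime] {ζ : Qb} (hζ : IsPrimitiveRoot ζ q) (m : ℕ) (hm : 0 < m)
    (c : ZMod q) (hc : c ≠ 0) (h : per q ζ m (c ^ m) = per q ζ m 1) : c ^ m = 1 := by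
  have h0 : ∀ t : ZMod q, t ≠ 0 →
      (0 : ZMod q) ∉ (Finset.univ : Finset (ZMod q)).filter (fun a => a ^ m = t) := by
    intro t ht h
    simp only [Finset.mem_filter, Finset.mem_univ, true_and] at h
    rw [zero_pow hm.ne'] at h
    exact ht h.symm
  have h1 := sum_pow_inj hζ _ _ (h0 _ (pow_ne_zero m hc)) (h0 1 one_ne_zero) h
  have h2 : c ∈ (Finset.univ : Finset (ZMod q)).filter (fun a => a ^ m = c ^ m) := by simp
  rw [h1] at h2
  simpa using h2

/-- automorphisms raise `ζ` to a power -/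
lemma exists_exp {q : ℕ} [hq : Fact q.Prime] {ζ : Qb} (hζ : IsPrimitiveRoot ζ q)
    (σ : Qb ≃ₐ[ℚ] Qb) : ∃ c : ZMod q, c ≠ 0 ∧ σ ζ = ζ ^ c.val := by
  have h1 : IsPrimitiveRoot (σ ζ) q := hζ.map_of_injective σ.injective
  obtain ⟨i, hi, he⟩ := hζ.eq_pow_of_pow_eq_one h1.pow_eq_one
  refine ⟨(i : ZMod q), ?_, ?_⟩
  · intro h0
    rw [ZMod.natCast_eq_zero_iff] at h0
    have : i = 0 := Nat.eq_zero_of_dvd_of_lt h0 hi
    subst this
    rw [pow_zero] at he
    exact h1.ne_one hq.out.one_lt he.symm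
  · rw [pow_natCast_val hζ.pow_eq_one, he]

end Pool.Agent.Zk47
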