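import Mathlib
import Pool.Agent.Zk47.Per

set_option autoImplicit false

/-!
# Frobenius automorphisms and local degrees
-/

namespace Pool.Agent.Zk47

open Polynomial Module
open Pool.Agent.H58P (Qb qb_isIntegral alg_isIntegral)

/-- the Frobenius automorphism -/
theorem exists_frob {R k Ω : Type*} [CommRing R] [IsDomain R] [IsIntegrallyClosed R] [IsLocalRing R]
    [Field k] [CharZero k] [Algebra R k] [IsFractionRing R k] [Field Ω] [Algebra k Ω] [Algebra R Ω]
    [IsScalarTower R k Ω] [IsAlgClosure k Ω] (p q : ℕ) (hp : p.Prime) (hq : q.Prime) (hqp : q ≠ p)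
    (hpκ : (p : IsLocalRing.ResidueField R) = 0)
    (hfrob : ∀ y : IsLocalRing.ResidueField R, y ^ p = y) (ζ : Ω) (hζ : IsPrimitiveRoot ζ q) :
    ∃ τ : Ω ≃ₐ[k] Ω, τ ζ = ζ ^ p := by
  have hFp : Fact p.Prime := ⟨hp⟩
  have hcharp : CharP (IsLocalRing.ResidueField R) p := (CharP.charP_iff_prime_eq_zero hp).mpr hpκ
  have hRΩ : FaithfulSMul R Ω := by
    rw [faithfulSMul_iff_algebraMap_injective, IsScalarTower.algebraMap_eq R k Ω]
    exact (algebraMap k Ω).injective.comp (IsFractionRing.injective R k)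
  have hint : IsIntegral R ζ := ⟨X ^ q - 1, monic_X_pow_sub_C _ hq.ne_zero, by simp [hζ.pow_eq_one]⟩
  have hmin : minpoly k ζ = (minpoly R ζ).map (algebraMap R k) :=
    minpoly.isIntegrallyClosed_eq_field_fractions k Ω hint
  set g := minpoly R ζ with hg
  have hgm : g.Monic := minpoly.monic hint
  obtain ⟨h, hh⟩ : g ∣ (X ^ q - 1 : R[X]) := by
    apply minpoly.isIntegrallyClosed_dvd hint
    simp [hζ.pow_eq_one]
  have key : aeval (ζ ^ p) g = 0 := by
    by_contra hne
    have h1 : aeval (ζ ^ p) (X ^ q - 1 : R[X]) = 0 := by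
      simp only [map_sub, map_pow, aeval_X, map_one]
      rw [← pow_mul, mul_comm, pow_mul, hζ.pow_eq_one, one_pow, sub_self]
    rw [hh, map_mul] at h1
    have h2 : aeval (ζ ^ p) h = 0 := (mul_eq_zero.mp h1).resolve_left hne
    rw [← expand_aeval] at h2
    obtain ⟨s, hs⟩ := minpoly.isIntegrallyClosed_dvd hint h2
    set r := IsLocalRing.residue R with hr
    have h3 : (g.map r) ∣ (h.map r) ^ p := by
      have e1 : (expand R p h).map r = (h.map r) ^ p := by
        rw [map_expand]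
        have h4 := map_frobenius_expand p (f := h.map r)
        have h5 : frobenius (IsLocalRing.ResidueField R) p = RingHom.id _ := by
          ext y
          rw [frobenius_def]
          exact hfrob y
        rw [h5, Polynomial.map_id] at h4
        exact h4
      rw [← e1, hs, Polynomial.map_mul]
      exact Dvd.intro _ rfl
    have hsep : (X ^ q - 1 : (IsLocalRing.ResidueField R)[X]).Separable := by
      rw [X_pow_sub_one_separable_iff]
      intro h0
      rw [CharP.cast_eq_zero_iff (IsLocalRing.ResidueField R) p q] at h0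
      exact hqp ((Nat.prime_dvd_prime_iff_eq hp hq).mp h0).symm
    have e2 : (X ^ q - 1 : (IsLocalRing.ResidueField R)[X]) = g.map r * h.map r := by
      rw [← Polynomial.map_mul, ← hh]
      simp
    rw [e2] at hsep
    have hcop : IsCoprime (g.map r) (h.map r) := hsep.isCoprime
    have hunit : IsUnit (g.map r) := (hcop.pow_right (n := p)).isUnit_of_dvd' dvd_rfl h3
    have hdeg : (g.map r).natDegree = 0 := natDegree_eq_zero_of_isUnit hunit
    rw [hgm.natDegree_map] at hdeg
    have h9 := minpoly.natDegree_pos hint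
    rw [← hg] at h9
    omega
  have hconj : IsConjRoot k ζ (ζ ^ p) := by
    apply isConjRoot_of_aeval_eq_zero (hint.tower_top (A := k))
    rw [hmin, aeval_map_algebraMap]
    exact key
  have hnormal : Normal k Ω := IsAlgClosure.normal k Ω
  obtain ⟨τ, hτ⟩ := isConjRoot_iff_exists_algEquiv.mp hconj.symm
  exact ⟨τ, hτ⟩

lemma pow_cond {q : ℕ} [hq : Fact q.Prime] (p i m r : ℕ) (hp0 : (p : ZMod q) ≠ 0)
    (hns : ¬ IsSquare ((p : ℕ) : ZMod q)) (hm : q - 1 = 2 ^ i * m) (hr : 0 < r)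
    (h : ((p : ZMod q) ^ r) ^ m = 1) : 2 ^ i ≤ r := by
  obtain ⟨s, t, ht, hst⟩ := Nat.exists_eq_two_pow_mul_odd hr.ne'
  by_contra hcon
  have hsi : s < i := by
    by_contra hle
    apply hcon
    rw [not_lt] at hle
    rw [hst]
    calc 2 ^ i ≤ 2 ^ s := Nat.pow_le_pow_right (by norm_num) hle
      _ = 2 ^ s * 1 := (mul_one _).symm
      _ ≤ 2 ^ s * t := Nat.mul_le_mul_left _ ht.pos
  have hi : i = s + (i - 1 - s) + 1 := by omega
  have hq2 : q ≠ 2 := by
    rintro rfl
    have : i ≠ 0 := by omega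
    have h2 : 2 ∣ 2 ^ i * m := (dvd_pow_self 2 this).mul_right m
    rw [← hm] at h2
    omega
  have hodd : q % 2 = 1 := hq.out.eq_two_or_odd.resolve_left hq2
  have hhalf : q / 2 = 2 ^ s * 2 ^ (i - 1 - s) * m := by
    have h1 : q - 1 = 2 * (2 ^ s * 2 ^ (i - 1 - s) * m) := by
      rw [hm]
      conv_lhs => rw [hi]
      rw [pow_succ, pow_add]
      ring
    omega
  have heuler : ((p : ℕ) : ZMod q) ^ (q / 2) = -1 := by
    rcases ZMod.pow_div_two_eq_neg_one_or_one q hp0 with h1 | h1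
    · exact absurd ((ZMod.euler_criterion q hp0).mpr h1) hns
    · exact h1
  have h2 : (((p : ZMod q) ^ r) ^ m) ^ (2 ^ (i - 1 - s)) = -1 := by
    rw [← pow_mul, ← pow_mul, hst]
    have e : 2 ^ s * t * (m * 2 ^ (i - 1 - s)) = (q / 2) * t := by rw [hhalf]; ring
    rw [e, pow_mul, heuler, ht.neg_one_pow]
  rw [h, one_pow] at h2
  have h3 : (2 : ZMod q) = 0 := by linear_combination h2
  have h4 : ((2 : ℕ) : ZMod q) = 0 := by exact_mod_cast h3
  rw [ZMod.natCast_eq_zero_iff] at h4
  exact hq2 ((Nat.prime_dvd_prime_iff_eq hq.out Nat.prime_two).mp h4)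

/-- local degrees are large -/
theorem local_degree {k Ω : Type*} [Field k] [Field Ω] [Algebra k Ω] (ι : Qb →+* Ω)
    (p i q : ℕ) [hq : Fact q.Prime] (hp : p.Prime) (ζ : Qb) (hζ : IsPrimitiveRoot ζ q) (hqp : q ≠ p)
    (hdvd : 2 ^ i ∣ q - 1) (hns : ¬ IsSquare ((p : ℕ) : ZMod q)) (τ : Ω ≃ₐ[k] Ω)
    (hτ : τ (ι ζ) = (ι ζ) ^ p) (E : IntermediateField k Ω) [FiniteDimensional k E]
    (hE : ι (per q ζ ((q - 1) / 2 ^ i) 1) ∈ E) : 2 ^ i ≤ finrank k E := by
  classical
  obtain ⟨m, hm⟩ := hdvd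
  have hq2 := hq.out.two_le
  have hm' : (q - 1) / 2 ^ i = m := by rw [hm]; exact Nat.mul_div_cancel_left _ (by positivity)
  have hmpos : 0 < m := by
    rcases Nat.eq_zero_or_pos m with h | h
    · rw [h, mul_zero] at hm; omega
    · exact h
  rw [hm'] at hE
  set η := per q ζ m 1 with hη
  have hp0 : (p : ZMod q) ≠ 0 := by
    rw [Ne, ZMod.natCast_eq_zero_iff]
    intro h
    exact hqp ((Nat.prime_dvd_prime_iff_eq hq.out hp).mp h)
  have hint : IsIntegral k (ι η) := by
    have h1 : IsIntegral k (⟨ι η, hE⟩ : E) := IsIntegral.of_finite k _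
    exact h1.map E.val
  set f := minpoly k (ι η) with hf
  have hdeg : f.natDegree ≤ finrank k E := by
    have h1 : minpoly k (ι η) = minpoly k (⟨ι η, hE⟩ : E) :=
      minpoly.algHom_eq E.val E.val.injective (⟨ι η, hE⟩ : E)
    rw [hf, h1]
    exact minpoly.natDegree_le _
  have hroot : ∀ j : ℕ, (τ ^ j) (ι η) ∈ (f.map (algebraMap k Ω)).roots.toFinset := by
    intro j
    rw [Multiset.mem_toFinset, mem_roots ((minpoly.monic hint).map _).ne_zero, IsRoot.def,
      eval_map_algebraMap]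
    have := minpoly.aeval k (ι η)
    have h2 : aeval ((τ ^ j) (ι η)) f = (τ ^ j) (aeval (ι η) f) := by
      rw [← AlgEquiv.coe_toAlgHom, aeval_algHom_apply]
    rw [h2, hf, minpoly.aeval, map_zero]
  have hcard : (f.map (algebraMap k Ω)).roots.toFinset.card ≤ finrank k E := by
    refine (Multiset.toFinset_card_le _).trans ?_
    refine (card_roots' _).trans ?_
    rw [(minpoly.monic hint).natDegree_map]
    exact hdeg
  obtain ⟨a, ha, b, hb, hab, heq⟩ := Finset.exists_ne_map_eq_of_card_lt_of_maps_to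
    (s := Finset.range (finrank k E + 1)) (t := (f.map (algebraMap k Ω)).roots.toFinset)
    (f := fun j => (τ ^ j) (ι η)) (by rw [Finset.card_range]; omega) (fun j _ => hroot j)
  -- there is a power which fixes the period
  have hfix : ∃ r : ℕ, 0 < r ∧ r ≤ finrank k E ∧ (τ ^ r) (ι η) = ι η := by
    have key : ∀ a b : ℕ, a < b → b ∈ Finset.range (finrank k E + 1) →
        (τ ^ a) (ι η) = (τ ^ b) (ι η) → ∃ r : ℕ, 0 < r ∧ r ≤ finrank k E ∧ (τ ^ r) (ι η) = ι η := by
      intro a b hlt hb h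
      rw [Finset.mem_range] at hb
      refine ⟨b - a, by omega, by omega, ?_⟩
      apply (τ ^ a).injective
      rw [← AlgEquiv.mul_apply, ← pow_add, h]
      congr 2
      omega
    rcases lt_or_gt_of_ne hab with h | h
    · exact key a b h hb heq
    · exact key b a h ha heq.symm
  obtain ⟨r, hr0, hrE, hrfix⟩ := hfix
  have hτr : ∀ j : ℕ, (τ ^ j) (ι ζ) = ι (ζ ^ ((p : ZMod q) ^ j).val) := by
    intro j
    have h1 : (τ ^ j) (ι ζ) = (ι ζ) ^ (p ^ j) := by
      induction j with
      | zero => simp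
      | succ j ih => rw [pow_succ', AlgEquiv.mul_apply, ih, map_pow, hτ, ← pow_mul, ← pow_succ']
    rw [h1, ← map_pow]
    congr 1
    have h2 : ((p : ZMod q) ^ j) = ((p ^ j : ℕ) : ZMod q) := by push_cast; rfl
    rw [h2, pow_natCast_val hζ.pow_eq_one]
  have hper : (τ ^ r) (ι η) = ι (per q ζ m (((p : ZMod q) ^ r) ^ m)) := by
    have h1 := map_per (((τ ^ r : Ω ≃ₐ[k] Ω) : Ω →+* Ω).comp ι) ζ m 1 (q := q)
    have h2 : (((τ ^ r : Ω ≃ₐ[k] Ω) : Ω →+* Ω).comp ι) ζ = ι (ζ ^ ((p : ZMod q) ^ r).val) := hτr r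
    rw [h2, ← map_per, per_pow hζ.pow_eq_one m _ (pow_ne_zero r hp0), mul_one] at h1
    exact h1
  rw [hper] at hrfix
  have h5 := ι.injective hrfix
  have h6 := per_inj hζ m hmpos _ (pow_ne_zero r hp0) h5
  exact (pow_cond p i m r hp0 hns hm hr0 h6).trans hrE

end Pool.Agent.Zk47
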