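import Mathlib
import Pool.Agent.Zk47.Frob

set_option autoImplicit false

/-!
# The completions of the field of rational numbers
-/

namespace Pool.Agent.Zk47

open Polynomial Module NumberField IsDedekindDomain
open Pool.Agent.H58P (Qb qb_isIntegral alg_isIntegral)

lemma int_of_bot (a : 𝓞 (⊥ : IntermediateField ℚ Qb)) : ∃ n : ℤ, a = (n : 𝓞 (⊥ : IntermediateField ℚ Qb)) := by
  obtain ⟨x, hx⟩ := IntermediateField.mem_bot.mp (a : (⊥ : IntermediateField ℚ Qb)).2
  have h1 : IsIntegral ℤ (algebraMap ℚ Qb x) := by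
    rw [hx]
    exact (a.2 : IsIntegral ℤ (a : (⊥ : IntermediateField ℚ Qb))).map
      (IsScalarTower.toAlgHom ℤ (⊥ : IntermediateField ℚ Qb) Qb)
  rw [isIntegral_algebraMap_iff (algebraMap ℚ Qb).injective] at h1
  obtain ⟨n, hn⟩ := IsIntegrallyClosed.isIntegral_iff.mp h1
  refine ⟨n, ?_⟩
  apply RingOfIntegers.ext
  apply Subtype.ext
  rw [← hx, ← hn]
  simp

lemma exists_res_char {K : Type*} [Field K] [NumberField K] (v : HeightOneSpectrum (𝓞 K)) :
    ∃ p : ℕ, p.Prime ∧ (p : 𝓞 K) ∈ v.asIdeal := by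
  have key : ∀ n : ℕ, n ≠ 0 → (n : 𝓞 K) ∈ v.asIdeal → ∃ p : ℕ, p.Prime ∧ (p : 𝓞 K) ∈ v.asIdeal := by
    intro n
    induction n using Nat.recOnMul with
    | zero => intro h; exact absurd rfl h
    | one =>
      intro _ h
      rw [Nat.cast_one] at h
      exact absurd ((Ideal.eq_top_iff_one _).mpr h) v.isPrime.ne_top
    | prime p hp => intro _ h; exact ⟨p, hp, h⟩
    | mul a b iha ihb =>
      intro hab h
      rw [Nat.cast_mul] at h
      rcases v.isPrime.mem_or_mem h with h1 | h1
      · exact iha (left_ne_zero_of_mul hab) h1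
      · exact ihb (right_ne_zero_of_mul hab) h1
  refine key (Ideal.absNorm v.asIdeal) ?_ (Ideal.absNorm_mem v.asIdeal)
  rw [Ne, Ideal.absNorm_eq_zero_iff]
  exact v.ne_bot

section

variable {K : Type*} [Field K] [NumberField K] (v : HeightOneSpectrum (𝓞 K))

lemma exists_close (x : v.adicCompletion K) (hx : Valued.v x ≤ 1) :
    ∃ a : 𝓞 K, Valued.v ((algebraMap K (v.adicCompletion K) (algebraMap (𝓞 K) K a)) - x) < 1 := by
  have hdense := HeightOneSpectrum.denseRange_algebraMap (R := 𝓞 K) (K := K) v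
  have hnhds : {y : v.adicCompletion K | Valued.v.restrict (y - x) < 1} ∈ nhds x :=
    Valued.mem_nhds.mpr ⟨1, by rw [Units.val_one]⟩
  obtain ⟨y, hy1, ⟨k, rfl⟩⟩ := mem_closure_iff_nhds.mp (hdense x) _ hnhds
  have hk : Valued.v (algebraMap K (v.adicCompletion K) k - x) < 1 := by
    have h1 : Valued.v.restrict (algebraMap K (v.adicCompletion K) k - x) < 1 := hy1
    rw [Valuation.restrict_lt_iff_lt_embedding, map_one] at h1
    exact h1
  have hval : ∀ z : K, Valued.v (algebraMap K (v.adicCompletion K) z) = v.valuation K z := by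
    intro z
    exact HeightOneSpectrum.valuedAdicCompletion_eq_valuation' v z
  have hkx : Valued.v (algebraMap K (v.adicCompletion K) k) ≤ 1 := by
    have e : algebraMap K (v.adicCompletion K) k =
        (algebraMap K (v.adicCompletion K) k - x) + x := by ring
    rw [e]
    exact Valuation.map_add_le _ hk.le hx
  rw [hval] at hkx
  obtain ⟨a, ha⟩ := HeightOneSpectrum.exists_valuation_sub_lt_of_integer v hkx 1
  refine ⟨a, ?_⟩
  have e : algebraMap K (v.adicCompletion K) (algebraMap (𝓞 K) K a) - x =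
      algebraMap K (v.adicCompletion K) (algebraMap (𝓞 K) K a - k) +
        (algebraMap K (v.adicCompletion K) k - x) := by
    rw [map_sub]; ring
  rw [e]
  apply Valuation.map_add_lt _ _ hk
  rw [hval]
  simpa using ha

lemma res_char (p : ℕ) (hpv : (p : 𝓞 K) ∈ v.asIdeal) :
    (p : IsLocalRing.ResidueField (v.adicCompletionIntegers K)) = 0 := by
  have h1 : (p : IsLocalRing.ResidueField (v.adicCompletionIntegers K)) =
      IsLocalRing.residue _ (p : v.adicCompletionIntegers K) := by simp
  rw [h1, IsLocalRing.residue_eq_zero_iff, IsLocalRing.mem_maximalIdeal, mem_nonunits_iff,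
    HeightOneSpectrum.adicCompletionIntegers.isUnit_iff_valued_eq_one]
  have h2 : Valued.v ((p : v.adicCompletionIntegers K) : v.adicCompletion K) < 1 := by
    have e : ((p : v.adicCompletionIntegers K) : v.adicCompletion K) =
        algebraMap K (v.adicCompletion K) (algebraMap (𝓞 K) K (p : 𝓞 K)) := by
      simp
    rw [e]
    have h3 := HeightOneSpectrum.valuedAdicCompletion_eq_valuation' v (algebraMap (𝓞 K) K (p : 𝓞 K))
    have h4 : v.valuation K (algebraMap (𝓞 K) K (p : 𝓞 K)) < 1 :=
      (v.valuation_lt_one_iff_mem _).mpr hpv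
    rw [← h3] at h4
    exact h4
  exact h2.ne

end

/-- the residue field of the completion of the rational numbers -/
lemma res_frob [NumberField (⊥ : IntermediateField ℚ Qb)] (v : HeightOneSpectrum (𝓞 (⊥ : IntermediateField ℚ Qb))) (p : ℕ) (hp : p.Prime)
    (hpv : (p : 𝓞 (⊥ : IntermediateField ℚ Qb)) ∈ v.asIdeal)
    (y : IsLocalRing.ResidueField (v.adicCompletionIntegers (⊥ : IntermediateField ℚ Qb))) :
    y ^ p = y := by
  obtain ⟨x, rfl⟩ := IsLocalRing.residue_surjective y
  obtain ⟨a, ha⟩ := exists_close v x.1 x.2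
  obtain ⟨n, rfl⟩ := int_of_bot a
  have h1 : IsLocalRing.residue (v.adicCompletionIntegers (⊥ : IntermediateField ℚ Qb)) x =
      IsLocalRing.residue (v.adicCompletionIntegers (⊥ : IntermediateField ℚ Qb)) n := by
    rw [eq_comm, ← sub_eq_zero, ← map_sub, IsLocalRing.residue_eq_zero_iff,
      IsLocalRing.mem_maximalIdeal, mem_nonunits_iff,
      HeightOneSpectrum.adicCompletionIntegers.isUnit_iff_valued_eq_one]
    apply ne_of_lt
    convert ha using 2
    simp
  rw [h1, map_intCast]
  have hpκ := res_char v p hpv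
  have hFp : Fact p.Prime := ⟨hp⟩
  have hcharp : CharP (IsLocalRing.ResidueField
    (v.adicCompletionIntegers (⊥ : IntermediateField ℚ Qb))) p :=
    (CharP.charP_iff_prime_eq_zero hp).mpr hpκ
  have h2 := ZMod.pow_card (n : ZMod p)
  have h3 := congrArg (ZMod.castHom (dvd_refl p) (IsLocalRing.ResidueField
    (v.adicCompletionIntegers (⊥ : IntermediateField ℚ Qb)))) h2
  rw [map_pow, map_intCast] at h3
  exact h3

end Pool.Agent.Zk47
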