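import Mathlib
import Pool.Agent.Zk47.Per

set_option autoImplicit false

/-!
# The fields generated by Gaussian periods
-/

namespace Pool.Agent.Zk47

open Polynomial Module
open Pool.Agent.H58P (Qb qb_isIntegral alg_isIntegral)

variable {q : ℕ} [hq : Fact q.Prime] {ζ : Qb}

lemma aut_per (hζ : IsPrimitiveRoot ζ q) (m : ℕ) (σ : Qb ≃ₐ[ℚ] Qb) (c : ZMod q) (hc : c ≠ 0)
    (hσ : σ ζ = ζ ^ c.val) (t : ZMod q) : σ (per q ζ m t) = per q ζ m (c ^ m * t) := by
  have h1 := map_per (σ : Qb →+* Qb) ζ m t (q := q)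
  have h2 : (σ : Qb →+* Qb) ζ = ζ ^ c.val := hσ
  rw [h2, per_pow hζ.pow_eq_one m c hc] at h1
  exact h1

/-- all periods lie in the field generated by one of them -/
lemma per_mem (hζ : IsPrimitiveRoot ζ q) (m : ℕ) (hm : 0 < m) (t : ZMod q) :
    per q ζ m t ∈ IntermediateField.adjoin ℚ {per q ζ m 1} := by
  by_contra hcon
  obtain ⟨σ, hσ, hne⟩ := exists_moves _ _ hcon
  obtain ⟨c, hc, hσζ⟩ := exists_exp hζ σ
  have h1 := hσ _ (IntermediateField.mem_adjoin_simple_self ℚ (per q ζ m 1))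
  rw [aut_per hζ m σ c hc hσζ, mul_one] at h1
  have h2 := per_inj hζ m hm c hc h1
  apply hne
  rw [aut_per hζ m σ c hc hσζ, h2, one_mul]

/-- the field of the periods is normal -/
lemma perField_normal (hζ : IsPrimitiveRoot ζ q) (m : ℕ) (hm : 0 < m) (σ : Qb ≃ₐ[ℚ] Qb) (x : Qb)
    (hx : x ∈ IntermediateField.adjoin ℚ {per q ζ m 1}) :
    σ x ∈ IntermediateField.adjoin ℚ {per q ζ m 1} := by
  have h1 : IntermediateField.adjoin ℚ {per q ζ m 1} ≤
      (IntermediateField.adjoin ℚ {per q ζ m 1}).comap (σ : Qb →ₐ[ℚ] Qb) := by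
    rw [IntermediateField.adjoin_simple_le_iff]
    obtain ⟨c, hc, hσζ⟩ := exists_exp hζ σ
    show σ (per q ζ m 1) ∈ IntermediateField.adjoin ℚ {per q ζ m 1}
    rw [aut_per hζ m σ c hc hσζ]
    exact per_mem hζ m hm _
  exact h1 hx

/-- the degree of the field of the periods -/
lemma perField_degree (hζ : IsPrimitiveRoot ζ q) (n m : ℕ) (hn : 0 < n) (hnm : n * m = q - 1) :
    (minpoly ℚ (per q ζ m 1)).natDegree ≤ n := by
  classical
  set η := per q ζ m 1 with hη
  have hint := qb_isIntegral η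
  have hsep : (minpoly ℚ η).Separable := (minpoly.irreducible hint).separable
  have hcard := Polynomial.card_rootSet_eq_natDegree hsep
    (IsAlgClosed.splits ((minpoly ℚ η).map (algebraMap ℚ Qb)))
  rw [← hcard, ← Set.toFinset_card]
  have hsub : ((minpoly ℚ η).rootSet Qb).toFinset ⊆
      (Polynomial.nthRoots n (1 : ZMod q)).toFinset.image (fun t => per q ζ m t) := by
    intro y hy
    rw [Set.mem_toFinset, mem_rootSet] at hy
    have hconj : IsConjRoot ℚ η y := isConjRoot_of_aeval_eq_zero hint hy.2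
    have hcl : IsAlgClosure ℚ Qb := ⟨inferInstance, AlgebraicClosure.isAlgebraic ℚ⟩
    have hnormal : Normal ℚ Qb := IsAlgClosure.normal ℚ Qb
    obtain ⟨σ, hσ⟩ := isConjRoot_iff_exists_algEquiv.mp hconj.symm
    obtain ⟨c, hc, hσζ⟩ := exists_exp hζ σ
    rw [Finset.mem_image]
    refine ⟨c ^ m, ?_, ?_⟩
    · rw [Multiset.mem_toFinset, mem_nthRoots hn, ← pow_mul, mul_comm, hnm]
      exact ZMod.pow_card_sub_one_eq_one hc
    · rw [← hσ, hη, aut_per hζ m σ c hc hσζ, mul_one]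
  calc _ ≤ ((Polynomial.nthRoots n (1 : ZMod q)).toFinset.image (fun t => per q ζ m t)).card :=
        Finset.card_le_card hsub
    _ ≤ (Polynomial.nthRoots n (1 : ZMod q)).toFinset.card := Finset.card_image_le
    _ ≤ Multiset.card (Polynomial.nthRoots n (1 : ZMod q)) := Multiset.toFinset_card_le _
    _ ≤ n := card_nthRoots n 1

end Pool.Agent.Zk47
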