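import Mathlib
import Pool.Agent.Zk47.PerField
import Pool.Agent.H58P.Rad

set_option autoImplicit false

/-!
# Ramification in cyclotomic extensions: estimates at the places over `q`
-/

namespace Pool.Agent.Zk47

open Polynomial Module NumberField
open Pool.Agent.H58P (Qb qb_isIntegral alg_isIntegral squarefree_span)

lemma val_int_le (V : ValuationSubring Qb) (x : Qb) (hx : IsIntegral ℤ x) :
    V.valuation x ≤ 1 := by
  rw [ValuationSubring.valuation_le_one_iff]
  have h1 : IsIntegral V x := hx.tower_top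
  obtain ⟨y, hy⟩ := IsIntegrallyClosed.isIntegral_iff.mp h1
  rw [← hy]
  exact y.2

/-- there is a place over `q` -/
lemma exists_over (q : ℕ) (hq : q.Prime) : ∃ V : ValuationSubring Qb, V.valuation (q : Qb) < 1 := by
  have hq0 : (q : Qb) ≠ 0 := by exact_mod_cast hq.ne_zero
  have h1 : (q : Qb)⁻¹ ∉ (integralClosure ℤ Qb).toSubring := by
    intro h
    have h2 : IsIntegral ℤ ((q : Qb)⁻¹) := h
    have h5 : IsIntegral ℤ ((q : ℚ)⁻¹) := by
      rw [← isIntegral_algebraMap_iff (algebraMap ℚ Qb).injective]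
      simpa using h2
    obtain ⟨y, hy⟩ := IsIntegrallyClosed.isIntegral_iff.mp h5
    have hq0' : (q : ℚ) ≠ 0 := by exact_mod_cast hq.ne_zero
    have h6 : (y : ℚ) * q = 1 := by
      have : (y : ℚ) = (q : ℚ)⁻¹ := hy
      rw [this, inv_mul_cancel₀ hq0']
    have h7 : y * q = 1 := by exact_mod_cast h6
    have h8 : IsUnit (q : ℤ) := IsUnit.of_mul_eq_one_right _ h7
    exact (Nat.prime_iff_prime_int.mp hq).not_isUnit h8
  obtain ⟨V, -, hV⟩ := Subring.exists_le_valuationSubring_of_isIntegrallyClosedIn h1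
  refine ⟨V, ?_⟩
  rw [← ValuationSubring.valuation_le_one_iff, not_le, map_inv₀] at hV
  exact (one_lt_inv₀ (zero_lt_iff.mpr ((Valuation.ne_zero_iff _).mpr hq0))).mp hV

section cyc

variable {q : ℕ} [hq : Fact q.Prime] {ζ : Qb} (V : ValuationSubring Qb)

lemma val_root (μ : Qb) (hμ : μ ^ q = 1) : V.valuation μ ≤ 1 := by
  apply val_int_le
  refine ⟨X ^ q - 1, monic_X_pow_sub_C _ hq.out.ne_zero, by simp [hμ]⟩

lemma val_one_sub_pow_le (μ : Qb) (hμ : V.valuation μ ≤ 1) (k : ℕ) :
    V.valuation (1 - μ ^ k) ≤ V.valuation (1 - μ) := by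
  have h1 : 1 - μ ^ k = (1 - μ) * ∑ i ∈ Finset.range k, μ ^ i := by
    rw [mul_neg_geom_sum]
  rw [h1, map_mul]
  have h2 : V.valuation (∑ i ∈ Finset.range k, μ ^ i) ≤ 1 := by
    apply Valuation.map_sum_le
    intro i _
    rw [map_pow]
    exact pow_le_one₀ zero_le hμ
  exact mul_le_of_le_one_right' h2

lemma val_one_sub_eq (hζ : IsPrimitiveRoot ζ q) (μ : Qb) (hμ : IsPrimitiveRoot μ q) :
    V.valuation (1 - μ) = V.valuation (1 - ζ) := by
  obtain ⟨i, -, hi⟩ := hζ.eq_pow_of_pow_eq_one hμ.pow_eq_one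
  obtain ⟨j, -, hj⟩ := hμ.eq_pow_of_pow_eq_one hζ.pow_eq_one
  apply le_antisymm
  · rw [← hi]; exact val_one_sub_pow_le V ζ (val_root V ζ hζ.pow_eq_one) i
  · rw [← hj]; exact val_one_sub_pow_le V μ (val_root V μ hμ.pow_eq_one) j

lemma val_pi (hζ : IsPrimitiveRoot ζ q) :
    V.valuation (1 - ζ) ^ (q - 1) = V.valuation (q : Qb) := by
  have h1 := eval_one_cyclotomic_prime (R := Qb) (p := q)
  rw [cyclotomic_eq_prod_X_sub_primitiveRoots hζ, eval_prod] at h1
  simp only [eval_sub, eval_X, eval_C] at h1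
  rw [← h1, map_prod]
  rw [Finset.prod_congr rfl fun μ hμ => val_one_sub_eq V hζ μ
    ((mem_primitiveRoots hq.out.pos).mp hμ)]
  rw [Finset.prod_const, hζ.card_primitiveRoots, Nat.totient_prime hq.out]

lemma val_pi_lt (hζ : IsPrimitiveRoot ζ q) (hV : V.valuation (q : Qb) < 1) :
    V.valuation (1 - ζ) < 1 := by
  by_contra hcon
  rw [not_lt] at hcon
  have := one_le_pow₀ (n := q - 1) hcon
  rw [val_pi V hζ] at this
  exact absurd hV (not_lt.mpr this)

/-- expansion of the elements of `M(ζ)` -/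
lemma expansion (hζ : IsPrimitiveRoot ζ q) (M : IntermediateField ℚ Qb) (y : Qb)
    (hy : y ∈ IntermediateField.adjoin M {ζ}) :
    ∃ P : M[X], P.natDegree < q - 1 ∧ aeval (1 - ζ) P = y := by
  have halg : IsAlgebraic M ζ := (alg_isIntegral M ζ).isAlgebraic
  have h1 : y ∈ (IntermediateField.adjoin M {ζ}).toSubalgebra := hy
  rw [IntermediateField.adjoin_simple_toSubalgebra_of_isAlgebraic halg,
    Algebra.adjoin_singleton_eq_range_aeval] at h1
  obtain ⟨g, hg⟩ := h1
  have hg' : aeval ζ g = y := hg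
  have hmon : (cyclotomic q M).Monic := cyclotomic.monic q M
  have hdeg : (cyclotomic q M).natDegree = q - 1 := by
    rw [natDegree_cyclotomic, Nat.totient_prime hq.out]
  have hroot : aeval ζ (cyclotomic q M) = 0 := by
    rw [aeval_def, ← eval_map, map_cyclotomic]
    exact (hζ.isRoot_cyclotomic hq.out.pos)
  have hq2 := hq.out.two_le
  refine ⟨(g %ₘ cyclotomic q M).comp (1 - X), ?_, ?_⟩
  · have h2 : (1 - X : M[X]).natDegree = 1 := by
      have : (1 - X : M[X]) = -(X - C 1) := by simp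
      rw [this, natDegree_neg, natDegree_X_sub_C]
    rw [natDegree_comp, h2, mul_one, ← hdeg]
    apply natDegree_modByMonic_lt _ hmon
    intro h
    rw [h, natDegree_one] at hdeg
    omega
  · rw [aeval_comp]
    have h3 : aeval (1 - ζ) (1 - X : M[X]) = ζ := by simp
    rw [h3, ← hg']
    conv_rhs => rw [← modByMonic_add_div g (cyclotomic q M)]
    rw [map_add, map_mul, hroot, zero_mul, add_zero]

end cyc



open IsDedekindDomain

/-- the prime ideal of `𝓞 L` under `V` -/
lemma exists_place (L : IntermediateField ℚ Qb) [NumberField L] (V : ValuationSubring Qb) (q : ℕ)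
    (hq0 : q ≠ 0) (hV : V.valuation (q : Qb) < 1) :
    ∃ P : HeightOneSpectrum (𝓞 L), (q : 𝓞 L) ∈ P.asIdeal ∧
      ∀ x : L, P.valuation L x ≤ 1 → V.valuation (x : Qb) ≤ 1 := by
  have hint : ∀ x : 𝓞 L, ((x : L) : Qb) ∈ V := by
    intro x
    rw [← ValuationSubring.valuation_le_one_iff]
    apply val_int_le
    exact (x.2 : IsIntegral ℤ (x : L)).map (IsScalarTower.toAlgHom ℤ L Qb)
  let f : 𝓞 L →+* V := ((algebraMap L Qb).comp (algebraMap (𝓞 L) L)).codRestrict V.toSubring hint
  have hf : ∀ x : 𝓞 L, ((f x : V) : Qb) = ((x : L) : Qb) := fun x => rfl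
  let I : Ideal (𝓞 L) := Ideal.comap f (IsLocalRing.maximalIdeal V)
  have hI : ∀ x : 𝓞 L, x ∈ I ↔ V.valuation ((x : L) : Qb) < 1 := by
    intro x
    exact ValuationSubring.valuation_lt_one_iff V (f x)
  have hqI : (q : 𝓞 L) ∈ I := by
    rw [hI]
    simpa using hV
  refine ⟨⟨I, inferInstance, ?_⟩, hqI, ?_⟩
  · intro h
    rw [h, Ideal.mem_bot] at hqI
    exact hq0 (by exact_mod_cast hqI)
  · intro x hx
    obtain ⟨n, d, hnd⟩ := HeightOneSpectrum.exists_primeCompl_mul_eq_of_integer _ x hx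
    have hd : V.valuation (((d : 𝓞 L) : L) : Qb) = 1 := by
      apply le_antisymm
      · rw [ValuationSubring.valuation_le_one_iff]; exact hint _
      · have h1 : (d : 𝓞 L) ∉ I := d.2
        rw [hI, not_lt] at h1
        exact h1
    have h2 : (x : Qb) * (((d : 𝓞 L) : L) : Qb) = ((n : L) : Qb) := by
      have := congrArg (fun z : L => (z : Qb)) hnd
      simpa using this
    have h3 := congrArg V.valuation h2
    rw [map_mul, hd, mul_one] at h3
    rw [h3, ValuationSubring.valuation_le_one_iff]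
    exact hint _

/-- unramified fields: the values are powers of the value of `q` -/
lemma val_unram (M : IntermediateField ℚ Qb) [NumberField M] (V : ValuationSubring Qb) (q : ℕ)
    (hq : q.Prime) (hV : V.valuation (q : Qb) < 1) (hd : ¬ (q : ℤ) ∣ discr M) (c : Qb) (hc : c ∈ M)
    (hc0 : c ≠ 0) : ∃ n : ℤ, V.valuation c = V.valuation (q : Qb) ^ n := by
  obtain ⟨P, hqP, hP⟩ := exists_place M V q hq.ne_zero hV
  have hsq := squarefree_span q hq hd
  have hq0 : (q : 𝓞 M) ≠ 0 := by exact_mod_cast hq.ne_zero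
  have hval : P.valuation M (q : M) = WithZero.exp (-1 : ℤ) := by
    have e : (q : M) = algebraMap (𝓞 M) M (q : 𝓞 M) := by simp
    rw [e, HeightOneSpectrum.valuation_of_algebraMap]
    apply le_antisymm
    · have := (P.intValuation_le_pow_iff_mem (q : 𝓞 M) 1).mpr (by rwa [pow_one])
      simpa using this
    · by_contra hcon
      rw [not_le] at hcon
      have h2 : P.intValuation (q : 𝓞 M) ≤ WithZero.exp (-((2 : ℕ) : ℤ)) := by
        rw [P.intValuation_if_neg hq0] at hcon ⊢
        rw [WithZero.exp_lt_exp] at hcon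
        rw [WithZero.exp_le_exp]
        push_cast
        omega
      rw [P.intValuation_le_pow_iff_dvd] at h2
      have h3 : P.asIdeal * P.asIdeal ∣ Ideal.span {(q : 𝓞 M)} := by rwa [← pow_two]
      have h4 := hsq _ h3
      exact P.isPrime.ne_top (Ideal.isUnit_iff.mp h4)
  set c' : M := ⟨c, hc⟩ with hc'
  have hc0' : c' ≠ 0 := by
    intro h
    exact hc0 (congrArg (fun z : M => (z : Qb)) h)
  have hqM : (q : M) ≠ 0 := by exact_mod_cast hq.ne_zero
  have hqQ : (q : Qb) ≠ 0 := by exact_mod_cast hq.ne_zero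
  have hne : P.valuation M c' ≠ 0 := (Valuation.ne_zero_iff _).mpr hc0'
  obtain ⟨k, hk⟩ : ∃ k : ℤ, P.valuation M c' = WithZero.exp k := ⟨_, (WithZero.exp_log hne).symm⟩
  refine ⟨-k, ?_⟩
  have h1 : P.valuation M (c' * (q : M) ^ k) = 1 := by
    rw [map_mul, map_zpow₀, hval, hk, ← WithZero.exp_zsmul, ← WithZero.exp_add]
    simp
  have h2 : P.valuation M (c' * (q : M) ^ k)⁻¹ = 1 := by rw [map_inv₀, h1, inv_one]
  have h3 := hP _ h1.le
  have h4 := hP _ h2.le
  have e1 : ((c' * (q : M) ^ k : M) : Qb) = c * (q : Qb) ^ k := by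
    push_cast
    rfl
  have e2 : (((c' * (q : M) ^ k)⁻¹ : M) : Qb) = (c * (q : Qb) ^ k)⁻¹ := by
    rw [← e1]
    push_cast
    rfl
  rw [e1] at h3
  rw [e2, map_inv₀] at h4
  have hne2 : V.valuation (c * (q : Qb) ^ k) ≠ 0 :=
    (Valuation.ne_zero_iff _).mpr (mul_ne_zero hc0 (zpow_ne_zero _ hqQ))
  have h5 : V.valuation (c * (q : Qb) ^ k) = 1 := by
    apply le_antisymm h3
    exact (inv_le_one₀ (zero_lt_iff.mpr hne2)).mp h4
  rw [map_mul, map_zpow₀] at h5
  rw [zpow_neg]
  exact eq_inv_of_mul_eq_one_left h5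

end Pool.Agent.Zk47
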