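import Mathlib
import Pool.Agent.Zk47.Ram

set_option autoImplicit false

/-!
# Total ramification: the local estimate
-/

namespace Pool.Agent.Zk47

open Polynomial Module NumberField
open Pool.Agent.H58P (Qb qb_isIntegral alg_isIntegral)

variable {q : ℕ} [hq : Fact q.Prime] {ζ : Qb}

lemma coeff_val_le (hζ : IsPrimitiveRoot ζ q) (M : IntermediateField ℚ Qb) [NumberField M]
    (hd : ¬ (q : ℤ) ∣ discr M) (V : ValuationSubring Qb) (hV : V.valuation (q : Qb) < 1)
    (P : M[X]) (hP : P.natDegree < q - 1) (h1 : V.valuation (aeval (1 - ζ) P) ≤ 1) (j : ℕ) :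
    V.valuation (P.coeff j : Qb) ≤ 1 := by
  classical
  set w := V.valuation (1 - ζ) with hw
  have hw1 : w < 1 := val_pi_lt V hζ hV
  have hq2 := hq.out.two_le
  have hqQ : (q : Qb) ≠ 0 := by exact_mod_cast hq.out.ne_zero
  have hwq : w ^ (q - 1) = V.valuation (q : Qb) := val_pi V hζ
  have hw0 : 0 < w := by
    rw [zero_lt_iff]
    intro h0
    rw [h0, zero_pow (by omega)] at hwq
    exact (Valuation.ne_zero_iff _).mpr hqQ hwq.symm
  -- exponents
  have hex : ∀ j, ∃ n : ℤ, (P.coeff j : Qb) ≠ 0 →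
      V.valuation (P.coeff j : Qb) = V.valuation (q : Qb) ^ n := by
    intro j
    by_cases h0 : (P.coeff j : Qb) = 0
    · exact ⟨0, fun h => absurd h0 h⟩
    · obtain ⟨n, hn⟩ := val_unram M V q hq.out hV hd (P.coeff j : Qb) (P.coeff j).2 h0
      exact ⟨n, fun _ => hn⟩
  choose n hn using hex
  set e : ℕ → ℤ := fun j => (q - 1 : ℕ) * n j + j with he
  have hterm : ∀ j, (P.coeff j : Qb) ≠ 0 →
      V.valuation ((P.coeff j : Qb) * (1 - ζ) ^ j) = w ^ e j := by
    intro j hj
    rw [map_mul, map_pow, hn j hj, ← hwq, ← hw, he]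
    simp only
    rw [zpow_add₀ hw0.ne', zpow_mul, zpow_natCast, zpow_natCast]
  have hsum : aeval (1 - ζ) P = ∑ i ∈ Finset.range (q - 1), (P.coeff i : Qb) * (1 - ζ) ^ i := by
    rw [aeval_eq_sum_range' hP]
    refine Finset.sum_congr rfl fun i _ => ?_
    rw [Algebra.smul_def]
    rfl
  -- all exponents are nonnegative
  have key : ∀ i, (P.coeff i : Qb) ≠ 0 → 0 ≤ e i := by
    by_contra hcon
    push Not at hcon
    obtain ⟨i0, hi0, hei0⟩ := hcon
    set S := (Finset.range (q - 1)).filter (fun i => (P.coeff i : Qb) ≠ 0) with hS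
    have hlt : ∀ i, (P.coeff i : Qb) ≠ 0 → i < q - 1 := by
      intro i hi
      by_contra h
      apply hi
      rw [coeff_eq_zero_of_natDegree_lt (by omega)]
      rfl
    have hi0S : i0 ∈ S := by
      rw [hS, Finset.mem_filter, Finset.mem_range]
      exact ⟨hlt i0 hi0, hi0⟩
    obtain ⟨k, hkS, hk⟩ := Finset.exists_min_image S e ⟨i0, hi0S⟩
    rw [hS, Finset.mem_filter, Finset.mem_range] at hkS
    have hek : e k < 0 := (hk i0 hi0S).trans_lt hei0
    have h2 : V.valuation (∑ i ∈ (Finset.range (q - 1)).erase k, (P.coeff i : Qb) * (1 - ζ) ^ i) <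
        w ^ e k := by
      apply Valuation.map_sum_lt _ (zpow_ne_zero _ hw0.ne')
      intro i hi
      rw [Finset.mem_erase, Finset.mem_range] at hi
      by_cases hi0 : (P.coeff i : Qb) = 0
      · rw [hi0, zero_mul, map_zero]
        exact zpow_pos hw0 _
      · rw [hterm i hi0]
        apply zpow_lt_zpow_right_of_lt_one₀ hw0 hw1
        have h3 : e k ≤ e i := hk i (by
          rw [hS, Finset.mem_filter, Finset.mem_range]
          exact ⟨hi.2, hi0⟩)
        rcases lt_or_eq_of_le h3 with h4 | h4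
        · exact h4
        · exfalso
          apply hi.1
          simp only [he] at h4
          have h5 : ((q - 1 : ℕ) : ℤ) * (n k - n i) = i - k := by linarith
          have h6 : (((q - 1 : ℕ) : ℤ)) ∣ ((i : ℤ) - k) := ⟨_, h5.symm⟩
          have h7 : ((i : ℤ) - k) = 0 := by
            apply Int.eq_zero_of_abs_lt_dvd h6
            rw [abs_lt]
            constructor <;> omega
          omega
    have h3 : V.valuation (aeval (1 - ζ) P) = w ^ e k := by
      rw [hsum, ← Finset.add_sum_erase _ _ (Finset.mem_range.mpr hkS.1)]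
      rw [← hterm k hkS.2] at h2 ⊢
      exact Valuation.map_add_eq_of_lt_left _ h2
    rw [h3] at h1
    have h4 : 1 < w ^ e k := by
      rw [← zpow_zero w]
      exact zpow_lt_zpow_right_of_lt_one₀ hw0 hw1 hek
    exact absurd h1 (not_le.mpr h4)
  by_cases hj : (P.coeff j : Qb) = 0
  · rw [hj, map_zero]; exact zero_le
  · rw [hn j hj]
    have h2 := key j hj
    have hlt : j < q - 1 := by
      by_contra h
      apply hj
      rw [coeff_eq_zero_of_natDegree_lt (by omega)]
      rfl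
    have h3 : 0 ≤ n j := by
      by_contra hneg
      simp only [he] at h2
      have h4 : n j ≤ -1 := by omega
      have h5 : ((q - 1 : ℕ) : ℤ) * n j ≤ ((q - 1 : ℕ) : ℤ) * (-1) :=
        mul_le_mul_of_nonneg_left h4 (by positivity)
      have h6 : (j : ℤ) < ((q - 1 : ℕ) : ℤ) := by exact_mod_cast hlt
      linarith
    obtain ⟨m, hm⟩ := Int.eq_ofNat_of_zero_le h3
    rw [hm, zpow_natCast]
    exact pow_le_one₀ zero_le hV.le

/-- the local estimate -/
theorem local_est (hζ : IsPrimitiveRoot ζ q) (M : IntermediateField ℚ Qb) [NumberField M]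
    (hd : ¬ (q : ℤ) ∣ discr M) (V : ValuationSubring Qb) (hV : V.valuation (q : Qb) < 1)
    (σ : Qb ≃ₐ[ℚ] Qb) (hσ : ∀ y ∈ M, σ y = y) (α : Qb)
    (hα : α ∈ IntermediateField.adjoin M {ζ}) (h1 : V.valuation α ≤ 1) :
    V.valuation (σ α - α) < 1 := by
  obtain ⟨P, hP, hPα⟩ := expansion hζ M α hα
  have hq2 := hq.out.two_le
  have hcoeff := coeff_val_le hζ M hd V hV P hP (by rw [hPα]; exact h1)
  have hsum : aeval (1 - ζ) P = ∑ i ∈ Finset.range (q - 1), (P.coeff i : Qb) * (1 - ζ) ^ i := by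
    rw [aeval_eq_sum_range' hP]
    refine Finset.sum_congr rfl fun i _ => ?_
    rw [Algebra.smul_def]
    rfl
  rw [← hPα, hsum, map_sum, ← Finset.sum_sub_distrib]
  apply Valuation.map_sum_lt _ one_ne_zero
  intro i _
  have e1 : σ ((P.coeff i : Qb) * (1 - ζ) ^ i) = (P.coeff i : Qb) * (1 - σ ζ) ^ i := by
    rw [map_mul, hσ _ (P.coeff i).2, map_pow, map_sub, map_one]
  rw [e1, ← mul_sub, map_mul]
  have hσζ : IsPrimitiveRoot (σ ζ) q := hζ.map_of_injective σ.injective
  have hp1 : V.valuation (1 - ζ) < 1 := val_pi_lt V hζ hV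
  have hp2 : V.valuation (1 - σ ζ) < 1 := val_pi_lt V hσζ hV
  have h2 : V.valuation ((1 - σ ζ) ^ i - (1 - ζ) ^ i) < 1 := by
    rcases Nat.eq_zero_or_pos i with rfl | hi
    · simp
    · apply Valuation.map_sub_lt
      · rw [map_pow]; exact pow_lt_one₀ zero_le hp2 hi.ne'
      · rw [map_pow]; exact pow_lt_one₀ zero_le hp1 hi.ne'
  calc V.valuation (P.coeff i : Qb) * V.valuation ((1 - σ ζ) ^ i - (1 - ζ) ^ i)
      ≤ 1 * V.valuation ((1 - σ ζ) ^ i - (1 - ζ) ^ i) := by gcongr; exact hcoeff i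
    _ < 1 := by rwa [one_mul]

end Pool.Agent.Zk47
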