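import Mathlib
import Pool.Agent.Zk47.Est
import Pool.Agent.H58P.Ht
import Pool.Agent.H58B.Low

set_option autoImplicit false

/-!
# The lower bound for heights
-/

namespace Pool.Agent.Zk47

open Polynomial Module NumberField IsDedekindDomain Height
open Pool.Agent.H58P (Qb qb_isIntegral alg_isIntegral ht)

/-- the norm of a prime over `q` is at least `q` -/
lemma le_absNorm {L : Type*} [Field L] [NumberField L] (q : ℕ) (hq : q.Prime)
    (P : HeightOneSpectrum (𝓞 L)) (hqP : (q : 𝓞 L) ∈ P.asIdeal) : q ≤ Ideal.absNorm P.asIdeal := by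
  have h1 : Ideal.absNorm P.asIdeal ∣ q ^ finrank ℤ (𝓞 L) := by
    have h2 : Ideal.span {(q : 𝓞 L)} ≤ P.asIdeal := by
      rw [Ideal.span_singleton_le_iff_mem]; exact hqP
    have h3 := Ideal.absNorm_dvd_absNorm_of_le h2
    rw [Ideal.absNorm_span_singleton] at h3
    have h4 : Algebra.norm ℤ (q : 𝓞 L) = (q : ℤ) ^ finrank ℤ (𝓞 L) := by
      have := Algebra.norm_algebraMap (S := 𝓞 L) (q : ℤ)
      simpa using this
    rw [h4, Int.natAbs_pow, Int.natAbs_natCast] at h3
    exact h3
  obtain ⟨k, -, hk⟩ := (Nat.dvd_prime_pow hq).mp h1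
  rw [hk]
  have h5 := HeightOneSpectrum.one_lt_absNorm P
  rw [hk] at h5
  have h6 : k ≠ 0 := by rintro rfl; simp at h5
  exact Nat.le_self_pow h6 q

lemma place_le {L : Type*} [Field L] [NumberField L] (q : ℕ) (hq : q.Prime)
    (P : HeightOneSpectrum (𝓞 L)) (hqP : (q : 𝓞 L) ∈ P.asIdeal) (x : L)
    (hx : P.valuation L x < 1) : FinitePlace.mk P x ≤ (q : ℝ)⁻¹ := by
  rw [FinitePlace.mk_apply, FinitePlace.norm_embedding']
  have h1 : P.valuation L x ≤ WithZero.exp (-1 : ℤ) := by
    by_cases h0 : P.valuation L x = 0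
    · rw [h0]; exact zero_le
    · rw [← WithZero.exp_log h0] at hx ⊢
      rw [← WithZero.exp_zero, WithZero.exp_lt_exp] at hx
      rw [WithZero.exp_le_exp]
      omega
  have h2 := (WithZeroMulInt.toNNReal_strictMono
    (HeightOneSpectrum.one_lt_absNorm_nnreal P)).monotone h1
  have h3 : (WithZeroMulInt.toNNReal (HeightOneSpectrum.absNorm_ne_zero P)
      (WithZero.exp (-1 : ℤ))) = (Ideal.absNorm P.asIdeal : NNReal)⁻¹ := by
    rw [WithZeroMulInt.toNNReal_neg_apply _ WithZero.exp_ne_zero]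
    rw [← zpow_neg_one]
    rfl
  rw [h3] at h2
  have h4 : ((WithZeroMulInt.toNNReal (HeightOneSpectrum.absNorm_ne_zero P)
      (P.valuation L x) : NNReal) : ℝ) ≤ ((Ideal.absNorm P.asIdeal : NNReal)⁻¹ : NNReal) := by
    exact_mod_cast h2
  refine h4.trans ?_
  push_cast
  have hq0 : (0 : ℝ) < q := by exact_mod_cast hq.pos
  apply inv_anti₀ hq0
  exact_mod_cast le_absNorm q hq P hqP

/-- the product formula for the difference of two numbers which are close at one place -/
theorem glob {L : Type*} [Field L] [NumberField L] (q : ℕ) (hq : q.Prime)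
    (w₀ : FinitePlace L) (α β : L) (hne : β - α ≠ 0)
    (hloc : w₀ (β - α) ≤ (q : ℝ)⁻¹ * (max (w₀ α) 1 * max (w₀ β) 1)) :
    (q : ℝ) ≤ 2 ^ finrank ℚ L * (mulHeight₁ α * mulHeight₁ β) := by
  classical
  have hq0 : (0 : ℝ) < q := by exact_mod_cast hq.pos
  have hpf := prod_abs_eq_one hne
  have hinf : ∏ w : InfinitePlace L, w (β - α) ^ w.mult ≤
      2 ^ finrank ℚ L * ((∏ w : InfinitePlace L, max (w α) 1 ^ w.mult) *
        ∏ w : InfinitePlace L, max (w β) 1 ^ w.mult) := by
    have e2 : (2 : ℝ) ^ finrank ℚ L = ∏ w : InfinitePlace L, (2 : ℝ) ^ w.mult := by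
      rw [Finset.prod_pow_eq_pow_sum, InfinitePlace.sum_mult_eq]
    rw [e2, ← Finset.prod_mul_distrib, ← Finset.prod_mul_distrib]
    apply Finset.prod_le_prod
    · intro w _; positivity
    · intro w _
      rw [← mul_pow, ← mul_pow]
      apply pow_le_pow_left₀ (apply_nonneg _ _)
      have h1 : w (β - α) ≤ w β + w α := by
        rw [InfinitePlace.coe_apply, InfinitePlace.coe_apply, InfinitePlace.coe_apply]
        have := w.val.sub_le_add β α
        exact this
      have h2 := le_max_left (w α) 1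
      have h3 := le_max_left (w β) 1
      have h4 := le_max_right (w α) 1
      have h5 := le_max_right (w β) 1
      nlinarith
  set c : FinitePlace L → ℝ := fun w => if w = w₀ then (q : ℝ)⁻¹ else 1 with hc
  have hcs : Function.HasFiniteMulSupport c := by
    apply Set.Finite.subset (Set.finite_singleton w₀)
    intro w hw
    rw [Function.mem_mulSupport] at hw
    by_contra hcon
    exact hw (if_neg hcon)
  have hsupp : ∀ x : L, Function.HasFiniteMulSupport (fun w : FinitePlace L => max (w x) 1) := by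
    intro x
    by_cases hx : x = 0
    · subst hx
      simp [Function.hasFiniteMulSupport_one]
    · exact (FinitePlace.hasFiniteMulSupport hx).max Function.hasFiniteMulSupport_one
  have hfin : ∏ᶠ w : FinitePlace L, w (β - α) ≤
      ∏ᶠ w : FinitePlace L, (c w * (max (w α) 1 * max (w β) 1)) := by
    apply finprod_le_finprod (FinitePlace.hasFiniteMulSupport hne) (fun w => apply_nonneg _ _)
      (hcs.mul ((hsupp α).mul (hsupp β)))
    intro w
    show w (β - α) ≤ c w * (max (w α) 1 * max (w β) 1)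
    by_cases hw : w = w₀
    · have e : c w = (q : ℝ)⁻¹ := if_pos hw
      rw [e, hw]; exact hloc
    · have e : c w = 1 := if_neg hw
      rw [e, one_mul]
      have h1 : w (β - α) ≤ max (w β) (w α) := by
        have := FinitePlace.add_le w β (-α)
        rw [← sub_eq_add_neg] at this
        have e : w (-α) = w α := by
          rw [FinitePlace.coe_apply, FinitePlace.coe_apply, AbsoluteValue.map_neg]
        rwa [e] at this
      have h2 := le_max_left (w α) 1
      have h3 := le_max_left (w β) 1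
      have h4 := le_max_right (w α) 1
      have h5 := le_max_right (w β) 1
      refine h1.trans (max_le ?_ ?_) <;> nlinarith
  have hfin2 : ∏ᶠ w : FinitePlace L, (c w * (max (w α) 1 * max (w β) 1)) =
      (q : ℝ)⁻¹ * ((∏ᶠ w : FinitePlace L, max (w α) 1) * ∏ᶠ w : FinitePlace L, max (w β) 1) := by
    have e1 := finprod_mul_distrib hcs ((hsupp α).mul (hsupp β))
    have e2 := finprod_mul_distrib (hsupp α) (hsupp β)
    have e3 : ∏ᶠ w, c w = (q : ℝ)⁻¹ := by
      rw [finprod_eq_single c w₀ fun w hw => if_neg hw]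
      exact if_pos rfl
    rw [e3] at e1
    rw [← e2]
    exact e1
  rw [NumberField.mulHeight₁_eq, NumberField.mulHeight₁_eq]
  set A := ∏ w : InfinitePlace L, max (w α) 1 ^ w.mult
  set B := ∏ w : InfinitePlace L, max (w β) 1 ^ w.mult
  set A' := ∏ᶠ w : FinitePlace L, max (w α) 1
  set B' := ∏ᶠ w : FinitePlace L, max (w β) 1
  rw [hfin2] at hfin
  have hz1 : 0 ≤ ∏ᶠ w : FinitePlace L, w (β - α) := finprod_nonneg fun w => apply_nonneg _ _
  have h1 : (1 : ℝ) ≤ (2 ^ finrank ℚ L * (A * B)) * ((q : ℝ)⁻¹ * (A' * B')) := by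
    rw [← hpf]
    apply mul_le_mul hinf hfin hz1
    positivity
  calc (q : ℝ) = q * 1 := (mul_one _).symm
    _ ≤ q * ((2 ^ finrank ℚ L * (A * B)) * ((q : ℝ)⁻¹ * (A' * B'))) :=
        mul_le_mul_of_nonneg_left h1 hq0.le
    _ = 2 ^ finrank ℚ L * (A * A' * (B * B')) := by
        field_simp

/-- the estimate at a place over `q` for all elements -/
lemma val_diff {q : ℕ} [hq : Fact q.Prime] {ζ : Qb} (hζ : IsPrimitiveRoot ζ q)
    (M : IntermediateField ℚ Qb) [NumberField M] (hd : ¬ (q : ℤ) ∣ discr M)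
    (V : ValuationSubring Qb) (hV : V.valuation (q : Qb) < 1)
    (σ : Qb ≃ₐ[ℚ] Qb) (hσ : ∀ y ∈ M, σ y = y) (α : Qb)
    (hα : α ∈ IntermediateField.adjoin M {ζ}) :
    V.valuation (σ α - α) < max 1 (V.valuation α) * max 1 (V.valuation (σ α)) := by
  rcases le_or_gt (V.valuation α) 1 with h1 | h1
  · refine (local_est hζ M hd V hV σ hσ α hα h1).trans_le ?_
    exact one_le_mul (le_max_left _ _) (le_max_left _ _)
  · have hα0 : α ≠ 0 := by
      rintro rfl
      rw [map_zero] at h1
      exact absurd h1 (not_lt.mpr zero_le)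
    have hσα0 : σ α ≠ 0 := by
      rwa [Ne, EmbeddingLike.map_eq_zero_iff]
    have hinv : α⁻¹ ∈ IntermediateField.adjoin M {ζ} := inv_mem hα
    have h2 : V.valuation α⁻¹ ≤ 1 := by
      rw [map_inv₀]
      exact inv_le_one_of_one_le₀ h1.le
    have h3 := local_est hζ M hd V hV σ hσ α⁻¹ hinv h2
    have e : σ α⁻¹ - α⁻¹ = -((σ α - α) / (α * σ α)) := by
      rw [map_inv₀]
      field_simp
      ring
    rw [e, Valuation.map_neg, map_div₀, map_mul] at h3
    have h4 : 0 < V.valuation α * V.valuation (σ α) :=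
      mul_pos (zero_lt_iff.mpr ((Valuation.ne_zero_iff _).mpr hα0))
        (zero_lt_iff.mpr ((Valuation.ne_zero_iff _).mpr hσα0))
    rw [div_lt_one₀ h4] at h3
    exact h3.trans_le (mul_le_mul' (le_max_right _ _) (le_max_right _ _))

theorem ht_lower {q : ℕ} [hq : Fact q.Prime] {ζ : Qb} (hζ : IsPrimitiveRoot ζ q)
    (M : IntermediateField ℚ Qb) [NumberField M] (hd : ¬ (q : ℤ) ∣ discr M)
    (L : IntermediateField ℚ Qb) [NumberField L] (hL : ∀ x ∈ L, x ∈ IntermediateField.adjoin M {ζ})
    (hLn : ∀ σ : Qb ≃ₐ[ℚ] Qb, ∀ x ∈ L, σ x ∈ L)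
    (α : Qb) (hα : α ∈ L) (hαM : α ∉ M) :
    Real.log q ≤ finrank ℚ L * (Real.log 2 + 2 * ht α) := by
  obtain ⟨σ, hσ, hne⟩ := exists_moves M α hαM
  obtain ⟨V, hV⟩ := exists_over q hq.out
  obtain ⟨P, hqP, hP⟩ := exists_place L V q hq.out.ne_zero hV
  have hσα := hLn σ α hα
  have hPV : ∀ r : L, V.valuation (r : Qb) < 1 → P.valuation L r < 1 := by
    intro r hr
    by_contra hcon
    rw [not_lt] at hcon
    have h1 := hP r⁻¹ (by rw [map_inv₀]; exact inv_le_one_of_one_le₀ hcon)
    have e : ((r⁻¹ : L) : Qb) = (r : Qb)⁻¹ := by push_cast; rfl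
    rw [e, map_inv₀] at h1
    have hr0 : (r : Qb) ≠ 0 := by
      intro h0
      have : r = 0 := by exact_mod_cast h0
      rw [this, map_zero] at hcon
      exact absurd hcon (not_le.mpr zero_lt_one)
    have hVr : 0 < V.valuation (r : Qb) := zero_lt_iff.mpr ((Valuation.ne_zero_iff _).mpr hr0)
    have h2 := (inv_le_one₀ hVr).mp h1
    exact absurd hr (not_lt.mpr h2)
  set α' : L := ⟨α, hα⟩ with hα'
  set β' : L := ⟨σ α, hσα⟩ with hβ'
  have hmax : ∀ x : L, ∃ a : L, a ≠ 0 ∧ V.valuation (a : Qb) = max 1 (V.valuation (x : Qb)) ∧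
      FinitePlace.mk P a ≤ max (FinitePlace.mk P x) 1 := by
    intro x
    rcases le_or_gt (V.valuation (x : Qb)) 1 with h | h
    · refine ⟨1, one_ne_zero, ?_, ?_⟩
      · rw [max_eq_left h]
        simp
      · rw [map_one]; exact le_max_right _ _
    · refine ⟨x, ?_, ?_, le_max_left _ _⟩
      · rintro rfl
        simp at h
      · rw [max_eq_right h.le]
  obtain ⟨a, ha0, ha, ha'⟩ := hmax α'
  obtain ⟨b, hb0, hb, hb'⟩ := hmax β'
  have hdiff := val_diff hζ M hd V hV σ hσ α (hL α hα)
  have hr : FinitePlace.mk P ((β' - α') / (a * b)) ≤ (q : ℝ)⁻¹ := by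
    apply place_le q hq.out P hqP
    apply hPV
    have e : (((β' - α') / (a * b) : L) : Qb) = (σ α - α) / ((a : Qb) * (b : Qb)) := by
      push_cast
      rfl
    rw [e, map_div₀, map_mul, ha, hb, div_lt_one₀]
    · exact hdiff
    · exact mul_pos (lt_of_lt_of_le zero_lt_one (le_max_left _ _))
        (lt_of_lt_of_le zero_lt_one (le_max_left _ _))
  have hne' : β' - α' ≠ 0 := by
    intro h
    apply hne
    have := congrArg (fun z : L => (z : Qb)) (sub_eq_zero.mp h)
    exact this
  have hloc : FinitePlace.mk P (β' - α') ≤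
      (q : ℝ)⁻¹ * (max (FinitePlace.mk P α') 1 * max (FinitePlace.mk P β') 1) := by
    have e : β' - α' = (β' - α') / (a * b) * (a * b) := by
      field_simp
    rw [e, map_mul, map_mul]
    gcongr
  have hg := glob q hq.out (FinitePlace.mk P) α' β' hne' hloc
  have hq0 : (0 : ℝ) < q := by exact_mod_cast hq.out.pos
  have h5 := Real.log_le_log hq0 hg
  have hA := mulHeight₁_pos α'
  have hB := mulHeight₁_pos β'
  rw [Real.log_mul (by positivity) (by positivity), Real.log_mul hA.ne' hB.ne', Real.log_pow,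
    ← logHeight₁_eq_log_mulHeight₁, ← logHeight₁_eq_log_mulHeight₁, logHeight₁_eq_logHeight,
    logHeight₁_eq_logHeight, logHeight_swap, logHeight_swap β'] at h5
  have hfr := Pool.Agent.Helper259.AbsHt.finrank_pos' L
  have e1 : ht α = logHeight ![1, α'] / finrank ℚ L := by
    rw [← Pool.Agent.Helper259.AbsHt.val_eq L ![1, α']]
    show Pool.Agent.Helper259.AbsHt.absLogHeight ![1, α] = _
    congr 1
    funext i
    fin_cases i <;> simp [hα']
  have e2 : ht (σ α) = logHeight ![1, β'] / finrank ℚ L := by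
    rw [← Pool.Agent.Helper259.AbsHt.val_eq L ![1, β']]
    show Pool.Agent.Helper259.AbsHt.absLogHeight ![1, σ α] = _
    congr 1
    funext i
    fin_cases i <;> simp [hβ']
  rw [Pool.Agent.H58B.ht_conj] at e2
  have e3 : logHeight ![1, α'] = finrank ℚ L * ht α := by
    rw [e1]; field_simp
  have e4 : logHeight ![1, β'] = finrank ℚ L * ht α := by
    rw [e2]; field_simp
  rw [e3, e4] at h5
  linarith

end Pool.Agent.Zk47
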