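import Mathlib

set_option autoImplicit false

/-!
# Primes with a given quadratic nonresidue
-/

namespace Pool.Agent.Zk47

lemma exists_prime (k p : ℕ) (hp : p.Prime) (hp2 : p ≠ 2) (B : ℕ) :
    ∃ q : ℕ, q.Prime ∧ B < q ∧ 2 ^ k ∣ q - 1 ∧ q ≠ p ∧ ¬ IsSquare ((p : ℕ) : ZMod q) := by
  have : Fact p.Prime := ⟨hp⟩
  obtain ⟨a, ha⟩ := FiniteField.exists_nonsquare (F := ZMod p) (by rwa [ZMod.ringChar_zmod_n])
  have hcop : Nat.Coprime (2 ^ (k + 2)) p :=
    Nat.Coprime.pow_left _ ((Nat.coprime_primes Nat.prime_two hp).mpr (Ne.symm hp2))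
  set c := Nat.chineseRemainder hcop 1 a.val with hc
  have hc1 : (c : ℕ) ≡ 1 [MOD 2 ^ (k + 2)] := c.2.1
  have hc2 : (c : ℕ) ≡ a.val [MOD p] := c.2.2
  have ha0 : a ≠ 0 := by rintro rfl; exact ha (IsSquare.zero)
  have hcu : Nat.Coprime c (2 ^ (k + 2) * p) := by
    apply Nat.Coprime.mul_right
    · have := hc1.gcd_eq
      rw [Nat.gcd_one_left] at this
      exact this
    · have := hc2.gcd_eq
      have h2 : Nat.gcd a.val p = 1 := by
        have : Nat.Coprime p a.val := by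
          rw [Nat.Prime.coprime_iff_not_dvd hp]
          intro h
          have h3 := Nat.eq_zero_of_dvd_of_lt h a.val_lt
          exact ha0 ((ZMod.val_eq_zero a).mp h3)
        exact this.symm
      rw [h2] at this
      exact this
  have : NeZero (2 ^ (k + 2) * p) := ⟨mul_ne_zero (by positivity) hp.ne_zero⟩
  have hunit : IsUnit ((c : ℕ) : ZMod (2 ^ (k + 2) * p)) := (ZMod.isUnit_iff_coprime _ _).mpr hcu
  obtain ⟨q, hq1, hq2, hq3⟩ := Nat.forall_exists_prime_gt_and_eq_mod hunit (max B p)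
  have hmod : q ≡ c [MOD 2 ^ (k + 2) * p] := (ZMod.natCast_eq_natCast_iff _ _ _).mp hq3
  have hm1 : q ≡ 1 [MOD 2 ^ (k + 2)] := (hmod.of_mul_right _).trans hc1
  have hm2 : q ≡ a.val [MOD p] := (hmod.of_mul_left _).trans hc2
  have : Fact q.Prime := ⟨hq2⟩
  have hB : B < q := lt_of_le_of_lt (le_max_left _ _) hq1
  have hpq : p < q := lt_of_le_of_lt (le_max_right _ _) hq1
  have hdvd : 2 ^ (k + 2) ∣ q - 1 := (Nat.modEq_iff_dvd' hq2.one_lt.le).mp hm1.symm
  refine ⟨q, hq2, hB, (pow_dvd_pow 2 (by omega)).trans hdvd, hpq.ne', ?_⟩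
  have h4 : q % 4 = 1 := by
    have h5 : 4 ∣ q - 1 := (dvd_trans ⟨2 ^ k, by ring⟩ hdvd)
    have := hq2.one_lt
    omega
  rw [ZMod.exists_sq_eq_prime_iff_of_mod_four_eq_one h4 hp2]
  have e : ((q : ℕ) : ZMod p) = a := by
    rw [(ZMod.natCast_eq_natCast_iff _ _ _).mpr hm2, ZMod.natCast_zmod_val]
  rwa [e]

end Pool.Agent.Zk47
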