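import Mathlib
import Pool.Agent.Zk47.Glob
import Pool.Agent.Zk47.Primes

set_option autoImplicit false

/-!
# The tower of fields
-/

namespace Pool.Agent.Zk47

open Polynomial Module NumberField
open Pool.Agent.H58P (Qb qb_isIntegral alg_isIntegral ht)

/-- a normal number field -/
def Good (M : IntermediateField ℚ Qb) : Prop :=
  FiniteDimensional ℚ M ∧ ∀ σ : Qb ≃ₐ[ℚ] Qb, ∀ x ∈ M, σ x ∈ M

/-- the condition at `p` -/
def LocAt (p i : ℕ) (M : IntermediateField ℚ Qb) : Prop :=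
  ∃ (q : ℕ) (_ : Fact q.Prime) (ζ : Qb), IsPrimitiveRoot ζ q ∧ q ≠ p ∧ 2 ^ i ∣ q - 1 ∧
    ¬ IsSquare ((p : ℕ) : ZMod q) ∧ per q ζ ((q - 1) / 2 ^ i) 1 ∈ M

lemma stage (i p : ℕ) (hp : p.Prime) (hp2 : p ≠ 2) (M : IntermediateField ℚ Qb) (hM : Good M) :
    ∃ M' : IntermediateField ℚ Qb, Good M' ∧ M ≤ M' ∧
      (∀ α ∈ M', α ∉ M → (i : ℝ) * finrank ℚ M' + i < ht α) ∧ LocAt p i M' := by
  obtain ⟨hfd, hst⟩ := hM
  have hNF : NumberField M := { to_charZero := inferInstance, to_finiteDimensional := hfd }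
  set D : ℕ := finrank ℚ M * 2 ^ i with hD
  set B : ℝ := Real.exp (D * (Real.log 2 + 2 * (i * D + i))) with hB
  obtain ⟨q, hq, hqB, hdvd, hqp, hns⟩ := exists_prime i p hp hp2 (max (discr M).natAbs ⌈B⌉₊)
  have hFq : Fact q.Prime := ⟨hq⟩
  obtain ⟨ζ, hζ⟩ := HasEnoughRootsOfUnity.exists_primitiveRoot Qb q
  obtain ⟨m, hm⟩ := hdvd
  have hq2 := hq.two_le
  have hm' : (q - 1) / 2 ^ i = m := by rw [hm]; exact Nat.mul_div_cancel_left _ (by positivity)
  have hmpos : 0 < m := by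
    rcases Nat.eq_zero_or_pos m with h | h
    · rw [h, mul_zero] at hm; omega
    · exact h
  set η := per q ζ m 1 with hη
  set E := IntermediateField.adjoin ℚ {η} with hE
  have hEfd : FiniteDimensional ℚ E := IntermediateField.adjoin.finiteDimensional (qb_isIntegral η)
  have hEdeg : finrank ℚ E ≤ 2 ^ i := by
    rw [hE, IntermediateField.adjoin.finrank (qb_isIntegral η)]
    exact perField_degree hζ (2 ^ i) m (by positivity) hm.symm
  have hLfd : FiniteDimensional ℚ (M ⊔ E : IntermediateField ℚ Qb) := inferInstance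
  have hNFL : NumberField (M ⊔ E : IntermediateField ℚ Qb) :=
    { to_charZero := inferInstance, to_finiteDimensional := hLfd }
  have hLdeg : finrank ℚ (M ⊔ E : IntermediateField ℚ Qb) ≤ D :=
    (IntermediateField.finrank_sup_le M E).trans (Nat.mul_le_mul_left _ hEdeg)
  have hLst : ∀ σ : Qb ≃ₐ[ℚ] Qb, ∀ x ∈ M ⊔ E, σ x ∈ M ⊔ E := by
    intro σ x hx
    have h1 : M ⊔ E ≤ (M ⊔ E).comap (σ : Qb →ₐ[ℚ] Qb) := by
      apply sup_le
      · intro y hy
        exact (le_sup_left : M ≤ M ⊔ E) (hst σ y hy)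
      · intro y hy
        exact (le_sup_right : E ≤ M ⊔ E) (perField_normal hζ m hmpos σ y hy)
    exact h1 hx
  have hLζ : ∀ x ∈ M ⊔ E, x ∈ IntermediateField.adjoin M {ζ} := by
    intro x hx
    have h1 : M ⊔ E ≤ (IntermediateField.adjoin M {ζ}).restrictScalars ℚ := by
      apply sup_le
      · intro y hy
        rw [IntermediateField.mem_restrictScalars]
        exact (IntermediateField.adjoin M {ζ}).algebraMap_mem ⟨y, hy⟩
      · rw [hE, IntermediateField.adjoin_simple_le_iff, IntermediateField.mem_restrictScalars, hη]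
        unfold per
        exact sum_mem fun a _ => pow_mem (IntermediateField.mem_adjoin_simple_self M ζ) _
    exact h1 hx
  have hd : ¬ (q : ℤ) ∣ discr M := by
    intro h
    have h1 : q ∣ (discr M).natAbs := by rwa [← Int.natCast_dvd]
    have h2 : (discr M).natAbs ≠ 0 := Int.natAbs_ne_zero.mpr (discr_ne_zero M)
    have h3 := Nat.le_of_dvd (Nat.pos_of_ne_zero h2) h1
    have h4 := le_max_left (discr M).natAbs ⌈B⌉₊
    omega
  refine ⟨M ⊔ E, ⟨hLfd, hLst⟩, le_sup_left, ?_, ?_⟩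
  · intro α hα hαM
    have h1 := ht_lower hζ M hd (M ⊔ E) hLζ hLst α hα hαM
    have hht : 0 ≤ ht α := Pool.Agent.Helper259.AbsHt.absLogHeight_nonneg _
    have h2 : B < q := by
      have h3 : (⌈B⌉₊ : ℝ) < q := by
        exact_mod_cast lt_of_le_of_lt (le_max_right (discr M).natAbs ⌈B⌉₊) hqB
      exact (Nat.le_ceil B).trans_lt h3
    have h3 : D * (Real.log 2 + 2 * (i * D + i)) < Real.log q := by
      rw [Real.lt_log_iff_exp_lt (by exact_mod_cast hq.pos)]
      exact h2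
    have hlog2 : 0 < Real.log 2 := Real.log_pos (by norm_num)
    have hLdeg' : (finrank ℚ (M ⊔ E : IntermediateField ℚ Qb) : ℝ) ≤ D := by exact_mod_cast hLdeg
    have h4 : (finrank ℚ (M ⊔ E : IntermediateField ℚ Qb) : ℝ) * (Real.log 2 + 2 * ht α) ≤
        D * (Real.log 2 + 2 * ht α) := by
      apply mul_le_mul_of_nonneg_right hLdeg'
      positivity
    have h5 : (D : ℝ) * (Real.log 2 + 2 * (i * D + i)) < D * (Real.log 2 + 2 * ht α) := by linarith
    have hD0 : (0 : ℝ) < D := by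
      have : 0 < D := Nat.mul_pos finrank_pos (by positivity)
      exact_mod_cast this
    have h6 := lt_of_mul_lt_mul_left h5 hD0.le
    have h7 : (i : ℝ) * (finrank ℚ (M ⊔ E : IntermediateField ℚ Qb) : ℝ) ≤ i * D :=
      mul_le_mul_of_nonneg_left hLdeg' (Nat.cast_nonneg i)
    linarith
  · refine ⟨q, hFq, ζ, hζ, hqp, ⟨m, hm⟩, hns, ?_⟩
    rw [hm']
    exact (le_sup_right : E ≤ M ⊔ E) (IntermediateField.mem_adjoin_simple_self ℚ η)

/-- the prime treated at stage `i` -/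
noncomputable def primeAt (i : ℕ) : ℕ :=
  open Classical in if (Nat.unpair i).1.Prime ∧ (Nat.unpair i).1 ≠ 2 then (Nat.unpair i).1 else 3

lemma primeAt_prime (i : ℕ) : (primeAt i).Prime ∧ primeAt i ≠ 2 := by
  unfold primeAt
  split_ifs with h
  · exact h
  · exact ⟨Nat.prime_three, by norm_num⟩

lemma primeAt_pair (p m : ℕ) (hp : p.Prime) (hp2 : p ≠ 2) : primeAt (Nat.pair p m) = p := by
  unfold primeAt
  rw [Nat.unpair_pair]
  simp [hp, hp2]

theorem exists_tower : ∃ K : ℕ → IntermediateField ℚ Qb, (∀ i, Good (K i)) ∧ Monotone K ∧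
    (∀ i, ∀ α ∈ K (i + 1), α ∉ K i → (i : ℝ) * finrank ℚ (K (i + 1)) + i < ht α) ∧
    ∀ p, p.Prime → p ≠ 2 → ∀ m, ∃ i, m ≤ i ∧ LocAt p i (K (i + 1)) := by
  have h0 : Good (⊥ : IntermediateField ℚ Qb) := by
    refine ⟨inferInstance, fun σ x hx => ?_⟩
    rw [IntermediateField.mem_bot] at hx ⊢
    obtain ⟨y, rfl⟩ := hx
    exact ⟨y, (σ.commutes y).symm⟩
  have hstep : ∀ (i : ℕ) (M : {M : IntermediateField ℚ Qb // Good M}),
      ∃ M' : {M : IntermediateField ℚ Qb // Good M}, M.1 ≤ M'.1 ∧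
      (∀ α ∈ M'.1, α ∉ M.1 → (i : ℝ) * finrank ℚ M'.1 + i < ht α) ∧
        LocAt (primeAt i) i M'.1 := by
    intro i M
    obtain ⟨M', h1, h2, h3, h4⟩ := stage i (primeAt i) (primeAt_prime i).1 (primeAt_prime i).2 M.1 M.2
    exact ⟨⟨M', h1⟩, h2, h3, h4⟩
  choose next hnext using hstep
  let K : ℕ → {M : IntermediateField ℚ Qb // Good M} := fun n => Nat.rec ⟨⊥, h0⟩ (fun i M => next i M) n
  have hK : ∀ i, K (i + 1) = next i (K i) := fun i => rfl
  refine ⟨fun i => (K i).1, fun i => (K i).2, ?_, ?_, ?_⟩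
  · apply monotone_nat_of_le_succ
    intro i
    show (K i).1 ≤ (K (i + 1)).1
    rw [hK]
    exact (hnext i (K i)).1
  · intro i
    show ∀ α ∈ (K (i + 1)).1, α ∉ (K i).1 → (i : ℝ) * finrank ℚ (K (i + 1)).1 + i < ht α
    rw [hK]
    exact (hnext i (K i)).2.1
  · intro p hp hp2 m
    refine ⟨Nat.pair p m, Nat.right_le_pair p m, ?_⟩
    show LocAt p (Nat.pair p m) (K (Nat.pair p m + 1)).1
    rw [hK]
    have := (hnext (Nat.pair p m) (K (Nat.pair p m))).2.2
    rwa [primeAt_pair p m hp hp2] at this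

end Pool.Agent.Zk47
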