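import Mathlib
import Pool.Agent.Zk47.Tower
import Pool.Agent.Zk47.Compl
import Pool.Agent.H58W.HtLimit
import Pool.Agent.H58W.HtNorth

set_option autoImplicit false

/-!
# The union of the tower
-/

namespace Pool.Agent.Zk47

open Polynomial Module NumberField IsDedekindDomain Filter
open Pool.Agent.H58P (Qb qb_isIntegral alg_isIntegral ht)
open Pool.Agent.H58W (hM lift small_limit_bound northcott)

section

variable (K : ℕ → IntermediateField ℚ Qb)

/-- the union of the tower -/
noncomputable def F0 : IntermediateField ℚ Qb := ⨆ i, K i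

lemma mem_F0 (hmono : Monotone K) (x : Qb) : x ∈ F0 K ↔ ∃ i, x ∈ K i := by
  unfold F0
  have hdir : Directed (· ≤ ·) K := hmono.directed_le
  rw [← SetLike.mem_coe, IntermediateField.coe_iSup_of_directed hdir]
  simp

/-- the union as an extension of the smallest field -/
noncomputable def FF : IntermediateField (⊥ : IntermediateField ℚ Qb) Qb :=
  IntermediateField.extendScalars (bot_le : (⊥ : IntermediateField ℚ Qb) ≤ F0 K)

lemma mem_FF (hmono : Monotone K) (x : Qb) : x ∈ FF K ↔ ∃ i, x ∈ K i := by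
  unfold FF
  rw [IntermediateField.mem_extendScalars, mem_F0 K hmono]

lemma galois_FF (hmono : Monotone K) (hgood : ∀ i, Good (K i)) :
    IsGalois (⊥ : IntermediateField ℚ Qb) (FF K) := by
  have hcl : IsAlgClosure (⊥ : IntermediateField ℚ Qb) Qb := ⟨inferInstance, inferInstance⟩
  have hn : Normal (⊥ : IntermediateField ℚ Qb) Qb := IsAlgClosure.normal _ Qb
  have h1 : Normal (⊥ : IntermediateField ℚ Qb) (FF K) := by
    rw [IntermediateField.normal_iff_forall_map_le']
    rintro σ x hx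
    obtain ⟨y, hy, rfl⟩ := hx
    have hy' : y ∈ FF K := hy
    rw [mem_FF K hmono] at hy'
    obtain ⟨i, hi⟩ := hy'
    show σ y ∈ FF K
    rw [mem_FF K hmono]
    exact ⟨i, (hgood i).2 (σ.restrictScalars ℚ) y hi⟩
  exact ⟨⟩

/-- small points -/
lemma finite_small (hmono : Monotone K) (hgood : ∀ i, Good (K i))
    (hlow : ∀ i, ∀ α ∈ K (i + 1), α ∉ K i → (i : ℝ) * finrank ℚ (K (i + 1)) + i < ht α)
    (P Q : Qb[X]) (d : ℕ) (hd : max P.natDegree Q.natDegree = d) (hd2 : 2 ≤ d)
    (hco : IsCoprime P Q) :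
    Set.Finite {α : Qb | α ∈ FF K ∧ ∃ L : ℝ,
      Tendsto (fun n : ℕ => hM (((lift P Q d)^[n] (α, 1)).1 / ((lift P Q d)^[n] (α, 1)).2) /
        (d : ℝ) ^ n) atTop (nhds L) ∧ L < 1} := by
  obtain ⟨m, hm⟩ := small_limit_bound P Q d hd hd2 hco
  have hdeg : ∀ i, ∀ α ∈ K i, (minpoly ℚ α).natDegree ≤ finrank ℚ (K i) := by
    intro i α hα
    have hfd := (hgood i).1
    have h1 : minpoly ℚ α = minpoly ℚ (⟨α, hα⟩ : K i) :=
      minpoly.algHom_eq (K i).val (K i).val.injective (⟨α, hα⟩ : K i)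
    rw [h1]
    exact minpoly.natDegree_le _
  apply (northcott (finrank ℚ (K m)) (m * finrank ℚ (K m) + m)).subset
  rintro α ⟨hα, L, hlim, hL⟩
  have hαm : α ∈ K m := by
    by_contra hcon
    rw [mem_FF K hmono] at hα
    classical
    have hfind := Nat.find_spec hα
    have hmin := fun j => Nat.find_min hα (m := j)
    set N := Nat.find hα
    have hN : m < N := by
      by_contra h
      rw [not_lt] at h
      exact hcon (hmono h hfind)
    obtain ⟨j, hj⟩ : ∃ j, N = j + 1 := ⟨N - 1, by omega⟩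
    rw [hj] at hfind
    have h1 := hlow j α hfind (hmin j (by omega))
    have h2 := hm (finrank ℚ (K (j + 1))) α (hdeg _ α hfind) L hL hlim
    have h3 : (m : ℝ) ≤ j := by
      have : m ≤ j := by omega
      exact_mod_cast this
    have h4 : (m : ℝ) * finrank ℚ (K (j + 1)) ≤ j * finrank ℚ (K (j + 1)) :=
      mul_le_mul_of_nonneg_right h3 (Nat.cast_nonneg _)
    have h5 : ht α ≤ m * finrank ℚ (K (j + 1)) + m := h2
    linarith
  exact ⟨hdeg m α hαm, hm (finrank ℚ (K m)) α (hdeg m α hαm) L hL hlim⟩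

/-- the local degrees at the places not over two are infinite -/
lemma local_infinite [NumberField (⊥ : IntermediateField ℚ Qb)] (hmono : Monotone K)
    (hloc : ∀ p, p.Prime → p ≠ 2 → ∀ m, ∃ i, m ≤ i ∧ LocAt p i (K (i + 1)))
    (v : HeightOneSpectrum (𝓞 (⊥ : IntermediateField ℚ Qb)))
    (hv : (2 : 𝓞 (⊥ : IntermediateField ℚ Qb)) ∉ v.asIdeal) :
    ¬ ∀ ι : Qb →ₐ[(⊥ : IntermediateField ℚ Qb)]
        AlgebraicClosure (v.adicCompletion (⊥ : IntermediateField ℚ Qb)),
      FiniteDimensional (v.adicCompletion (⊥ : IntermediateField ℚ Qb))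
        (IntermediateField.adjoin (v.adicCompletion (⊥ : IntermediateField ℚ Qb))
          (ι '' (FF K : Set Qb))) := by
  intro hall
  obtain ⟨p, hp, hpv⟩ := exists_res_char v
  have hp2 : p ≠ 2 := by
    rintro rfl
    exact hv (by exact_mod_cast hpv)
  let ι : Qb →ₐ[(⊥ : IntermediateField ℚ Qb)]
        AlgebraicClosure (v.adicCompletion (⊥ : IntermediateField ℚ Qb)) := IsAlgClosed.lift
  have hfd := hall ι
  set E := IntermediateField.adjoin (v.adicCompletion (⊥ : IntermediateField ℚ Qb))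
          (ι '' (FF K : Set Qb)) with hE
  obtain ⟨i, hi, q, hFq, ζ, hζ, hqp, hdvd, hns, hper⟩ := hloc p hp hp2
    (finrank (v.adicCompletion (⊥ : IntermediateField ℚ Qb)) E)
  have hζ' : IsPrimitiveRoot (ι ζ) q := hζ.map_of_injective ι.injective
  have hcz : CharZero (v.adicCompletion (⊥ : IntermediateField ℚ Qb)) :=
    charZero_of_injective_algebraMap (algebraMap (⊥ : IntermediateField ℚ Qb)
      (v.adicCompletion (⊥ : IntermediateField ℚ Qb))).injective
  obtain ⟨τ, hτ⟩ := exists_frob (R := v.adicCompletionIntegers (⊥ : IntermediateField ℚ Qb))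
    (k := v.adicCompletion (⊥ : IntermediateField ℚ Qb))
    (Ω := AlgebraicClosure (v.adicCompletion (⊥ : IntermediateField ℚ Qb))) p q hp hFq.out hqp
    (res_char v p hpv) (res_frob v p hp hpv) (ι ζ) hζ'
  have hmem : ι (per q ζ ((q - 1) / 2 ^ i) 1) ∈ E := by
    apply IntermediateField.subset_adjoin
    refine ⟨_, ?_, rfl⟩
    exact (mem_FF K hmono _).mpr ⟨i + 1, hper⟩
  have h1 := local_degree (ι : Qb →+* AlgebraicClosure (v.adicCompletion
    (⊥ : IntermediateField ℚ Qb))) p i q hp ζ hζ hqp hdvd hns τ hτ E hmem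
  have h2 : i < 2 ^ i := Nat.lt_two_pow_self
  omega

end

end Pool.Agent.Zk47
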